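import Pool.Agent.TH942.LS.Main

/-!
# Abelian arguments on the real axis
-/

set_option autoImplicit false

open MeasureTheory Filter Topology Set Complex

namespace Pool.Agent.TH942.LS

variable {lam c : ℕ → ℝ} {δ σ W b θ : ℝ} {w : ℝ → ℝ} {Ψ Kf : ℂ → ℂ}

/-- the continuation of the derivative -/
noncomputable def Qf (Ψ Kf : ℂ → ℂ) (s : ℂ) : ℂ := deriv Ψ s / Ψ s - Kf s

lemma Qf_diff (H : Cont lam c σ 0 Ψ Kf) (hne : ∀ s : ℂ, 0 < s.re → Ψ s ≠ 0) {s : ℂ} (hs : 0 < s.re) :
    DifferentiableAt ℂ (Qf Ψ Kf) s := by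
  unfold Qf
  exact ((H.analytic hs).deriv.differentiableAt.div (H.Ψd s hs) (hne s hs)).sub (H.Kd s hs)

lemma cone_norm {κ η : ℝ} (hκ : 0 < κ) (hη1 : η ≤ 1) {v : ℂ} (hv : v ∈ cone κ η) :
    ‖v‖ ≤ 2 * v.re ∧ 0 < v.re := by
  have e1 : 0 < v.re := hκ.trans_le hv.1
  have e2 := Complex.norm_le_abs_re_add_abs_im v
  rw [abs_of_pos e1] at e2
  have e3 : |v.im| ≤ v.re := hv.2.trans (by nlinarith)
  exact ⟨by linarith, e1⟩

/-- the bound on cones -/
theorem Qf_bound (D : Dat lam c δ σ) (H : Cont lam c σ 0 Ψ Kf) (hne : ∀ s : ℂ, 0 < s.re → Ψ s ≠ 0)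
    {κ : ℝ} (hκ : 0 < κ) : ∃ C : ℝ, 0 ≤ C ∧ ∀ v ∈ cone κ 1, ‖Qf Ψ Kf v‖ ≤ C / ‖v‖ ^ 2 := by
  have hσ := D.σ0
  have hδ := D.δ0
  set S₀ : ℝ := ∑' n, |c n| * Real.exp (-(σ * lam n)) with hSg
  have hSg0 : 0 ≤ S₀ := tsum_nonneg fun n => by positivity
  set V : ℝ := σ + 1 with hV
  obtain ⟨M, hM⟩ : ∃ M : ℝ, ∀ v ∈ cone κ 1, v.re ≤ V → ‖Qf Ψ Kf v‖ ≤ M := by
    have hcl : IsClosed (cone κ 1 ∩ {v : ℂ | v.re ≤ V}) := by
      have e1 : IsClosed {v : ℂ | κ ≤ v.re} := isClosed_le continuous_const Complex.continuous_re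
      have e2 : IsClosed {v : ℂ | |v.im| ≤ 1 * v.re} := isClosed_le (by fun_prop) (by fun_prop)
      have e3 : IsClosed {v : ℂ | v.re ≤ V} := isClosed_le Complex.continuous_re continuous_const
      exact (e1.inter e2).inter e3
    have hcomp : IsCompact (cone κ 1 ∩ {v : ℂ | v.re ≤ V}) := by
      refine (isCompact_closedBall (0 : ℂ) (2 * V)).of_isClosed_subset hcl ?_
      rintro v ⟨hv, hv2⟩
      rw [Metric.mem_closedBall, dist_zero_right]
      have := (cone_norm hκ le_rfl hv).1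
      have hv3 : v.re ≤ V := hv2
      linarith
    have hcont : ContinuousOn (Qf Ψ Kf) (cone κ 1 ∩ {v : ℂ | v.re ≤ V}) := fun v hv =>
      (Qf_diff H hne (cone_norm hκ le_rfl hv.1).2).continuousAt.continuousWithinAt
    obtain ⟨M, hM⟩ := hcomp.exists_bound_of_continuousOn hcont
    exact ⟨M, fun v hv hv2 => hM v ⟨hv, hv2⟩⟩
  set C₁ : ℝ := 2 / δ * S₀ * (2 * (σ + 1)) ^ 2 with hC₁
  refine ⟨|M| * (2 * V) ^ 2 + C₁, by positivity, fun v hv => ?_⟩
  obtain ⟨hv1, hv2⟩ := cone_norm hκ le_rfl hv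
  have hvn : 0 < ‖v‖ := hv2.trans_le (Complex.re_le_norm v)
  rw [le_div_iff₀ (by positivity)]
  have hC10 : 0 ≤ C₁ := by positivity
  rcases le_or_gt v.re V with h3 | h3
  · have e1 := (hM v hv h3).trans (le_abs_self M)
    have e2 : ‖v‖ ^ 2 ≤ (2 * V) ^ 2 := pow_le_pow_left₀ hvn.le (by linarith) 2
    have e3 : ‖Qf Ψ Kf v‖ * ‖v‖ ^ 2 ≤ |M| * (2 * V) ^ 2 :=
      mul_le_mul e1 e2 (by positivity) (abs_nonneg _)
    linarith
  · have hre : σ < v.re := by rw [hV] at h3; linarith
    have e0 : Qf Ψ Kf v = P lam c v := (H.eq v hre).symm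
    rw [e0]
    have e3 := P_le D (s := v) hre
    rw [← hSg] at e3
    have e4 : v.re / (σ + 1) ≤ v.re - σ := by
      rw [div_le_iff₀ (by positivity)]
      rw [hV] at h3
      nlinarith
    have e5 : 0 < v.re / (σ + 1) := by positivity
    have e6 : ‖P lam c v‖ * ‖v‖ ^ 2 ≤ C₁ := by
      calc ‖P lam c v‖ * ‖v‖ ^ 2 ≤ (2 / δ * S₀ / (v.re - σ) ^ 2) * (2 * v.re) ^ 2 := by gcongr
        _ ≤ (2 / δ * S₀ / (v.re / (σ + 1)) ^ 2) * (2 * v.re) ^ 2 := by gcongr
        _ = C₁ := by
          rw [hC₁]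
          field_simp
    have : 0 ≤ |M| * (2 * V) ^ 2 := by positivity
    linarith

lemma ocone_convex (κ : ℝ) : Convex ℝ (ocone κ 1) := by
  have e1 : ocone κ 1 = {z : ℂ | κ < z.re} ∩ ({z : ℂ | 0 < z.re - z.im} ∩
      {z : ℂ | 0 < z.re + z.im}) := by
    ext v
    simp only [ocone, mem_inter_iff, mem_ofPred_eq, abs_lt]
    constructor
    · rintro ⟨h2, h3, h4⟩
      exact ⟨h2, by linarith, by linarith⟩
    · rintro ⟨h2, h3, h4⟩
      exact ⟨h2, by linarith, by linarith⟩
  rw [e1]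
  refine (convex_halfSpace_re_gt _).inter (Convex.inter ?_ ?_)
  · have hl : IsLinearMap ℝ fun z : ℂ => z.re - z.im := by
      constructor
      · intro x y; simp; ring
      · intro c x; simp; ring
    exact convex_halfSpace_gt hl 0
  · have hl : IsLinearMap ℝ fun z : ℂ => z.re + z.im := by
      constructor
      · intro x y; simp; ring
      · intro c x; simp; ring
    exact convex_halfSpace_gt hl 0

/-- **the Laplace transform on the real axis** -/
theorem L_real (D : Dat lam c δ σ) (hw : Wt w W b) (H : Cont lam c σ 0 Ψ Kf)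
    (hne : ∀ s : ℂ, 0 < s.re → Ψ s ≠ 0)
    (hS : ∀ α, 0 < α → ∃ C T₀ : ℝ, ∀ T, T₀ ≤ T → |S lam c w T| ≤ C * Real.exp (α * T))
    {t : ℝ} (ht : 0 < t) : L lam c w t = EE w b (Qf Ψ Kf) t := by
  have hb := hw.b0
  set κ : ℝ := t / (2 * b) with hκ
  have hκ0 : 0 < κ := by positivity
  obtain ⟨C, hC, hCb⟩ := Qf_bound D H hne hκ0
  have hEd : ∀ v ∈ cone κ 1, DifferentiableAt ℂ (Qf Ψ Kf) v := fun v hv =>
    Qf_diff H hne (cone_norm hκ0 le_rfl hv).2
  have hEE := EE_diff hw hκ0 hEd hC hCb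
  have hOo := ocone_open (b * κ) 1
  have a1 : AnalyticOnNhd ℂ (L lam c w) (ocone (b * κ) 1) := by
    refine DifferentiableOn.analyticOnNhd (fun z hz => ?_) hOo
    have hz0 : 0 < z.re := lt_trans (by positivity) hz.1
    obtain ⟨C', T₀, hT⟩ := hS (z.re / 2) (by positivity)
    exact (L_diff D hw hT (by linarith)).differentiableWithinAt
  have a2 : AnalyticOnNhd ℂ (EE w b (Qf Ψ Kf)) (ocone (b * κ) 1) := hEE.analyticOnNhd hOo
  -- a far point
  set X : ℝ := max (b * κ + 1) (b * σ + 1) with hX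
  have hX1 : b * κ + 1 ≤ X := le_max_left _ _
  have hX2 : b * σ + 1 ≤ X := le_max_right _ _
  have hbκ : 0 < b * κ := by positivity
  have hXm : (X : ℂ) ∈ ocone (b * κ) 1 := by
    constructor
    · simp; linarith
    · simp; linarith
  have a3 : L lam c w =ᶠ[𝓝 (X : ℂ)] EE w b (Qf Ψ Kf) := by
    have ho : IsOpen {z : ℂ | b * σ < z.re} := isOpen_lt continuous_const Complex.continuous_re
    filter_upwards [ho.mem_nhds (show b * σ < (X : ℂ).re by simp; linarith)] with z hz
    have hz' : b * σ < z.re := hz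
    rw [laplace D hw hz']
    unfold EE
    refine setIntegral_congr_fun measurableSet_Ioo fun u hu => ?_
    have hu0 := hu.1
    have h4 : σ < (z / u).re := by
      rw [Complex.div_ofReal_re, lt_div_iff₀ hu0]
      have := mul_lt_mul_of_pos_left hu.2 D.σ0
      linarith
    rw [H.eq _ h4]
    rfl
  have h := a1.eqOn_of_preconnected_of_eventuallyEq a2 (ocone_convex _).isPreconnected hXm a3
  refine h ?_
  constructor
  · have : b * κ = t / 2 := by rw [hκ]; field_simp
    rw [this]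
    simp; linarith
  · simp; linarith

/-- **the behaviour at `0`**: weights which tend to `1` at `0` -/
theorem EE_asymp (D : Dat lam c δ σ) (hw : Wt w W b) (H : Cont lam c σ 0 Ψ Kf)
    (hne : ∀ s : ℂ, 0 < s.re → Ψ s ≠ 0) {CQ : ℝ} (hQ : ∀ v : ℝ, 0 < v → v * ‖Qf Ψ Kf v‖ ≤ CQ)
    {J : ℝ → ℂ} (hJ : ∀ v : ℝ, 0 < v → HasDerivAt J (Qf Ψ Kf v) v) {m CJ : ℝ}
    (hJ1 : ∀ v : ℝ, 1 ≤ v → ‖J v‖ ≤ CJ) (hJ0 : ∀ v : ℝ, 0 < v → v ≤ 1 → ‖J v - m * Real.log v‖ ≤ CJ)
    (hdini : IntegrableOn (fun u : ℝ => |w u - 1| / u) (Ioo 0 b)) :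
    ∃ C : ℝ, ∀ t : ℝ, 0 < t → t ≤ b → ‖t * EE w b (Qf Ψ Kf) t + m * Real.log t‖ ≤ C := by
  have hb := hw.b0
  have hCQ : 0 ≤ CQ := by
    have := hQ 1 one_pos
    have : 0 ≤ 1 * ‖Qf Ψ Kf (1 : ℝ)‖ := by positivity
    linarith
  set I₀ : ℝ := ∫ u in Ioo 0 b, |w u - 1| / u with hI₀
  refine ⟨CQ * I₀ + (1 + CJ + (CJ + |m| * |Real.log b|)), fun t ht htb => ?_⟩
  set Q := Qf Ψ Kf with hQd
  have htc : (t : ℂ) ≠ 0 := by exact_mod_cast ht.ne'
  -- the integrand
  set κ : ℝ := t / (2 * b) with hκ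
  have hκ0 : 0 < κ := by positivity
  obtain ⟨C, hC, hCb⟩ := Qf_bound D H hne hκ0
  have hEd : ∀ v ∈ cone κ 1, DifferentiableAt ℂ Q v := fun v hv =>
    Qf_diff H hne (cone_norm hκ0 le_rfl hv).2
  have htm : (t : ℂ) ∈ ocone (b * κ) 1 := by
    constructor
    · have : b * κ = t / 2 := by rw [hκ]; field_simp
      rw [this]
      simp; linarith
    · simp; linarith
  set g : ℝ → ℂ := fun u => (((u ^ 2)⁻¹ : ℝ) : ℂ) * Q (t / u) with hg
  -- the weight `1`
  have hw1 : Wt ((Iic b).indicator fun _ => (1 : ℝ)) 1 b := by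
    refine ⟨measurable_const.indicator measurableSet_Iic, fun u => ?_, hb, fun u hu => ?_⟩
    · by_cases h : u ∈ Iic b
      · rw [indicator_of_mem h]; simp
      · rw [indicator_of_notMem h]; simp
    · exact indicator_of_notMem (show u ∉ Iic b from fun h => not_lt.2 h hu) _
  have hind : ∀ u ∈ Ioo 0 b, (Iic b).indicator (fun _ => (1 : ℝ)) u = 1 := fun u hu =>
    indicator_of_mem (show u ∈ Iic b from hu.2.le) _
  have hgb : ∀ u ∈ Ioo 0 b, ‖g u‖ ≤ C / (b * κ) ^ 2 := by
    intro u hu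
    have := (EE_int hw1 hκ0 hEd hC hCb htm).1 u hu
    rw [hind u hu] at this
    simpa [hg] using this
  have hgm : AEStronglyMeasurable g (volume.restrict (Ioo 0 b)) := by
    refine (EE_int hw1 hκ0 hEd hC hCb htm).2.congr ?_
    filter_upwards [ae_restrict_mem measurableSet_Ioo] with u hu
    rw [hind u hu, hg]
    simp
  have hgi : Integrable g (volume.restrict (Ioo 0 b)) := by
    refine Integrable.mono' (integrable_const (C / (b * κ) ^ 2)) hgm ?_
    filter_upwards [ae_restrict_mem measurableSet_Ioo] with u hu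
    exact hgb u hu
  have hwi : Integrable (fun u : ℝ => ((w u - 1 : ℝ) : ℂ) * g u) (volume.restrict (Ioo 0 b)) := by
    refine hgi.bdd_mul (c := W + 1) ?_ ?_
    · have hm := hw.meas
      exact Measurable.aestronglyMeasurable (by fun_prop)
    · refine ae_of_all _ fun u => ?_
      rw [Complex.norm_real, Real.norm_eq_abs]
      have := hw.bd u
      calc |w u - 1| ≤ |w u| + |1| := abs_sub _ _
        _ ≤ _ := by rw [abs_one]; linarith
  have hsplit : EE w b Q t = (∫ u in Ioo 0 b, ((w u - 1 : ℝ) : ℂ) * g u) + ∫ u in Ioo 0 b, g u := by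
    rw [← integral_add hwi hgi]
    unfold EE
    refine setIntegral_congr_fun measurableSet_Ioo fun u _ => ?_
    simp only [hg]
    push_cast
    ring
  -- first part
  have h1 : ‖(t : ℂ) * ∫ u in Ioo 0 b, ((w u - 1 : ℝ) : ℂ) * g u‖ ≤ CQ * I₀ := by
    rw [← integral_const_mul, hI₀, ← integral_const_mul]
    refine norm_integral_le_of_norm_le (hdini.const_mul _) ?_
    filter_upwards [ae_restrict_mem measurableSet_Ioo] with u hu
    have hu0 := hu.1
    have h2 := hQ (t / u) (by positivity)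
    have e1 : (((t / u : ℝ)) : ℂ) = (t : ℂ) / u := by push_cast; rfl
    rw [e1] at h2
    rw [hg]
    simp only
    rw [norm_mul, norm_mul, norm_mul, Complex.norm_real, Complex.norm_real, Complex.norm_real,
      Real.norm_eq_abs, Real.norm_eq_abs, Real.norm_eq_abs, abs_of_pos ht,
      abs_of_pos (by positivity : 0 < (u ^ 2)⁻¹)]
    calc t * (|w u - 1| * ((u ^ 2)⁻¹ * ‖Q (t / u)‖)) =
        (t / u * ‖Q (t / u)‖) * (|w u - 1| / u) := by field_simp
      _ ≤ CQ * (|w u - 1| / u) := by gcongr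
  -- second part
  have h2 : ‖(t : ℂ) * (∫ u in Ioo 0 b, g u) + J (t / b)‖ ≤ 1 + CJ := by
    set M : ℝ := t * (C / (b * κ) ^ 2) + 1 with hM
    have hM0 : 0 < M := by positivity
    set e : ℝ := min (t) (1 / M) / 2 with he
    have he0 : 0 < e := by
      have : 0 < min t (1 / M) := lt_min ht (by positivity)
      positivity
    have het : e ≤ t := by
      have := min_le_left t (1 / M)
      rw [he]
      linarith
    have heb : e < b := by
      have := min_le_left t (1 / M)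
      rw [he]
      linarith
    have heM : M * e ≤ 1 := by
      have h3 := min_le_right t (1 / M)
      have h4 : e ≤ 1 / M := by
        rw [he]
        have : 0 < 1 / M := by positivity
        linarith
      calc M * e ≤ M * (1 / M) := mul_le_mul_of_nonneg_left h4 hM0.le
        _ = 1 := by field_simp
    have hu : Ioo 0 b = Ioc 0 e ∪ Ioo e b := by
      ext x
      simp only [mem_Ioo, mem_union, mem_Ioc]
      constructor
      · rintro ⟨h3, h4⟩
        rcases le_or_gt x e with h5 | h5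
        · exact Or.inl ⟨h3, h5⟩
        · exact Or.inr ⟨h5, h4⟩
      · rintro (⟨h3, h4⟩ | ⟨h3, h4⟩)
        · exact ⟨h3, by linarith⟩
        · exact ⟨by linarith, h4⟩
    have hd : Disjoint (Ioc 0 e) (Ioo e b) := by
      rw [Set.disjoint_left]
      rintro x ⟨_, h3⟩ ⟨h4, _⟩
      linarith
    have i1 : IntegrableOn g (Ioc 0 e) := by
      refine IntegrableOn.mono_set hgi ?_
      rw [hu]
      exact subset_union_left
    have i2 : IntegrableOn g (Ioo e b) := by
      refine IntegrableOn.mono_set hgi ?_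
      rw [hu]
      exact subset_union_right
    rw [hu, setIntegral_union hd measurableSet_Ioo i1 i2]
    -- fundamental theorem of calculus
    have h3 : (t : ℂ) * ∫ u in Ioo e b, g u = J (t / e) - J (t / b) := by
      rw [← integral_Ioc_eq_integral_Ioo, ← intervalIntegral.integral_of_le heb.le,
        ← intervalIntegral.integral_const_mul]
      have h4 : ∀ u ∈ uIcc e b, HasDerivAt (fun u : ℝ => -J (t / u)) ((t : ℂ) * g u) u := by
        intro u hu
        rw [uIcc_of_le heb.le] at hu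
        have hu0 : 0 < u := he0.trans_le hu.1
        have h5 : HasDerivAt (fun u : ℝ => t / u) (-(t / u ^ 2)) u := by
          have := (hasDerivAt_inv hu0.ne').const_mul t
          refine this.congr_deriv ?_
          field_simp
        have h6 := (HasDerivAt.scomp u (hJ (t / u) (by positivity)) h5).neg
        refine h6.congr_deriv ?_
        rw [hg]
        simp only
        have e1 : (((t / u : ℝ)) : ℂ) = (t : ℂ) / u := by push_cast; rfl
        rw [e1, Complex.real_smul]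
        push_cast
        field_simp
      have h5 : IntervalIntegrable (fun u : ℝ => (t : ℂ) * g u) volume e b := by
        rw [intervalIntegrable_iff_integrableOn_Ioo_of_le heb.le]
        exact Integrable.const_mul i2 _
      rw [intervalIntegral.integral_eq_sub_of_hasDerivAt h4 h5]
      ring
    have h4 : ‖(t : ℂ) * ∫ u in Ioc 0 e, g u‖ ≤ 1 := by
      rw [norm_mul, Complex.norm_real, Real.norm_eq_abs, abs_of_pos ht]
      have h5 : ‖∫ u in Ioc 0 e, g u‖ ≤ C / (b * κ) ^ 2 * volume.real (Ioc 0 e) := by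
        refine norm_setIntegral_le_of_norm_le_const measure_Ioc_lt_top fun u hu' => ?_
        exact hgb u ⟨hu'.1, hu'.2.trans_lt heb⟩
      have h6 : volume.real (Ioc 0 e) = e := by
        rw [measureReal_def, Real.volume_Ioc, sub_zero, ENNReal.toReal_ofReal he0.le]
      rw [h6] at h5
      calc t * ‖∫ u in Ioc 0 e, g u‖ ≤ t * (C / (b * κ) ^ 2 * e) := by gcongr
        _ ≤ M * e := by rw [hM]; nlinarith
        _ ≤ 1 := heM
    have h5 : ‖J (t / e)‖ ≤ CJ := hJ1 _ (by rw [le_div_iff₀ he0]; linarith)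
    have h6 : (t : ℂ) * ((∫ u in Ioc 0 e, g u) + ∫ u in Ioo e b, g u) + J (t / b) =
        (t : ℂ) * (∫ u in Ioc 0 e, g u) + J (t / e) := by
      rw [mul_add, h3]
      ring
    rw [h6]
    exact (norm_add_le _ _).trans (add_le_add h4 h5)
  have h3 : ‖J (t / b) - m * Real.log t‖ ≤ CJ + |m| * |Real.log b| := by
    have h4 := hJ0 (t / b) (by positivity) (by rw [div_le_one hb]; exact htb)
    have h5 : J (t / b) - m * Real.log t = (J (t / b) - m * Real.log (t / b)) -
        m * Real.log b := by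
      rw [Real.log_div ht.ne' hb.ne']
      push_cast
      ring
    rw [h5]
    refine (norm_sub_le _ _).trans (add_le_add h4 ?_)
    rw [norm_mul, Complex.norm_real, Complex.norm_real, Real.norm_eq_abs, Real.norm_eq_abs]
  have h4 : (t : ℂ) * EE w b Q t + m * Real.log t =
      (t : ℂ) * (∫ u in Ioo 0 b, ((w u - 1 : ℝ) : ℂ) * g u) +
      (((t : ℂ) * (∫ u in Ioo 0 b, g u) + J (t / b)) - (J (t / b) - m * Real.log t)) := by
    rw [hsplit]
    ring
  rw [h4]
  refine (norm_add_le _ _).trans (add_le_add h1 ((norm_sub_le _ _).trans (add_le_add h2 h3)))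

end Pool.Agent.TH942.LS
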