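import Mathlib

/-!
# An Abelian theorem for logarithmic growth
-/

set_option autoImplicit false

open MeasureTheory Filter Topology Set

namespace Pool.Agent.TH942.LS

lemma exp_int {t : ℝ} (ht : 0 < t) : IntegrableOn (fun T : ℝ => Real.exp (-(t * T))) (Ioi 0) := by
  have := integrableOn_exp_mul_Ioi (a := -t) (by linarith) 0
  refine this.congr_fun (fun T _ => ?_) measurableSet_Ioi
  simp only
  congr 1
  ring

lemma exp_val {t : ℝ} (ht : 0 < t) : ∫ T in Ioi (0 : ℝ), Real.exp (-(t * T)) = 1 / t := by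
  have h := integral_exp_mul_Ioi (a := -t) (by linarith) 0
  simp only [mul_zero, Real.exp_zero] at h
  have e : ∀ T : ℝ, Real.exp (-(t * T)) = Real.exp (-t * T) := fun T => by rw [neg_mul]
  simp only [e]
  rw [h]
  field_simp

/-- the positive part of the logarithm -/
noncomputable def lgp (T : ℝ) : ℝ := Real.log (max T 1)

lemma lgp_nonneg (T : ℝ) : 0 ≤ lgp T := Real.log_nonneg (le_max_right _ _)

lemma lgp_le {t T : ℝ} (ht : 0 < t) (ht1 : t ≤ 1) (hT : 0 < T) :
    lgp T ≤ Real.log (1 / t) + t * T := by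
  unfold lgp
  have hm : 0 < max T 1 := lt_max_of_lt_right one_pos
  have h1 := Real.log_le_sub_one_of_pos (mul_pos ht hm)
  rw [Real.log_mul ht.ne' hm.ne'] at h1
  have h2 : max T 1 ≤ T + 1 := max_le (by linarith) (by linarith)
  have h3 : t * max T 1 ≤ t * (T + 1) := mul_le_mul_of_nonneg_left h2 ht.le
  rw [one_div, Real.log_inv]
  linarith

lemma le_lgp {t T : ℝ} (ht : 0 < t) (hT : 0 < T) :
    Real.log (1 / t) + 2 - 2 * (t * T) ^ (-(1 / 2) : ℝ) ≤ lgp T := by
  have h1 : Real.log T ≤ lgp T := Real.log_le_log hT (le_max_left _ _)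
  have hx : 0 < t * T := mul_pos ht hT
  have h2 := Real.one_sub_inv_le_log_of_pos (Real.rpow_pos_of_pos hx (1 / 2))
  rw [Real.log_rpow hx, Real.log_mul ht.ne' hT.ne', ← Real.rpow_neg hx.le] at h2
  rw [one_div, Real.log_inv]
  linarith

lemma lgp_measurable : Measurable lgp := by
  unfold lgp
  fun_prop

lemma lgp_int {t : ℝ} (ht : 0 < t) (ht1 : t ≤ 1) :
    IntegrableOn (fun T : ℝ => Real.exp (-(t * T)) * lgp T) (Ioi 0) := by
  have h1 : IntegrableOn (fun T : ℝ => |Real.log (1 / t)| * Real.exp (-(t * T)) +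
      2 * Real.exp (-((t / 2) * T))) (Ioi 0) :=
    ((exp_int ht).const_mul _).add ((exp_int (by positivity : 0 < t / 2)).const_mul _)
  refine Integrable.mono' h1 ?_ ?_
  · have := lgp_measurable
    exact Measurable.aestronglyMeasurable (by fun_prop)
  · filter_upwards [ae_restrict_mem measurableSet_Ioi] with T hT
    have hT0 : 0 < T := hT
    rw [Real.norm_eq_abs, abs_mul, abs_of_pos (Real.exp_pos _), abs_of_nonneg (lgp_nonneg T)]
    have h2 := lgp_le ht ht1 hT0
    have h3 := le_abs_self (Real.log (1 / t))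
    have h4 : t * T ≤ 2 * Real.exp (t / 2 * T) := by
      have := Real.add_one_le_exp (t / 2 * T)
      linarith
    have h5 : Real.exp (-(t * T)) * Real.exp (t / 2 * T) = Real.exp (-((t / 2) * T)) := by
      rw [← Real.exp_add]
      congr 1
      ring
    calc Real.exp (-(t * T)) * lgp T ≤
        Real.exp (-(t * T)) * (|Real.log (1 / t)| + 2 * Real.exp (t / 2 * T)) := by
          gcongr
          linarith
      _ = |Real.log (1 / t)| * Real.exp (-(t * T)) +
          2 * (Real.exp (-(t * T)) * Real.exp (t / 2 * T)) := by ring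
      _ = _ := by rw [h5]

/-- the transform of the logarithm -/
theorem lgp_lap {t : ℝ} (ht : 0 < t) (ht1 : t ≤ 1) :
    |t * (∫ T in Ioi (0 : ℝ), Real.exp (-(t * T)) * lgp T) - Real.log (1 / t)| ≤
      2 * Real.Gamma (1 / 2) + 1 := by
  have hi := lgp_int ht ht1
  have he := exp_int ht
  have hv := exp_val ht
  -- the integral of `T exp (-t T)`
  have hG1 := Real.integral_rpow_mul_exp_neg_mul_Ioi (a := 2) (r := t) (by norm_num) ht
  have hG2 := Real.integral_rpow_mul_exp_neg_mul_Ioi (a := 1 / 2) (r := t) (by norm_num) ht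
  have hi1 : IntegrableOn (fun T : ℝ => T ^ ((2 : ℝ) - 1) * Real.exp (-(t * T))) (Ioi 0) := by
    by_contra h
    rw [integral_undef h] at hG1
    have : 0 < (1 / t) ^ (2 : ℝ) * Real.Gamma 2 :=
      mul_pos (Real.rpow_pos_of_pos (by positivity) _) (Real.Gamma_pos_of_pos (by norm_num))
    linarith
  have hi2 : IntegrableOn (fun T : ℝ => T ^ ((1 / 2 : ℝ) - 1) * Real.exp (-(t * T))) (Ioi 0) := by
    by_contra h
    rw [integral_undef h] at hG2
    have : 0 < (1 / t) ^ (1 / 2 : ℝ) * Real.Gamma (1 / 2) :=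
      mul_pos (Real.rpow_pos_of_pos (by positivity) _) (Real.Gamma_pos_of_pos (by norm_num))
    linarith
  have hGa : 0 < Real.Gamma (1 / 2) := Real.Gamma_pos_of_pos (by norm_num)
  rw [abs_le]
  constructor
  · -- lower bound
    have h1 : ∫ T in Ioi (0 : ℝ), ((Real.log (1 / t) + 2) * Real.exp (-(t * T)) -
        2 * t ^ (-(1 / 2) : ℝ) * (T ^ ((1 / 2 : ℝ) - 1) * Real.exp (-(t * T)))) ≤
        ∫ T in Ioi (0 : ℝ), Real.exp (-(t * T)) * lgp T := by
      refine setIntegral_mono_on ((he.const_mul _).sub (hi2.const_mul _)) hi measurableSet_Ioi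
        fun T hT => ?_
      have hT0 : (0 : ℝ) < T := hT
      have h2 := le_lgp ht hT0
      rw [Real.mul_rpow ht.le hT0.le] at h2
      have h3 := mul_le_mul_of_nonneg_left h2 (Real.exp_pos (-(t * T))).le
      have e1 : ((1 / 2 : ℝ) - 1) = -(1 / 2) := by norm_num
      rw [e1]
      calc _ = Real.exp (-(t * T)) * (Real.log (1 / t) + 2 -
            2 * (t ^ (-(1 / 2) : ℝ) * T ^ (-(1 / 2) : ℝ))) := by ring
        _ ≤ _ := h3
    rw [integral_sub (he.const_mul _) (hi2.const_mul _), integral_const_mul, integral_const_mul, hv,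
      hG2] at h1
    have h2 := mul_le_mul_of_nonneg_left h1 ht.le
    have e1 : t * ((Real.log (1 / t) + 2) * (1 / t) - 2 * t ^ (-(1 / 2) : ℝ) *
        ((1 / t) ^ (1 / 2 : ℝ) * Real.Gamma (1 / 2))) = Real.log (1 / t) + 2 -
        2 * Real.Gamma (1 / 2) := by
      have e2 : (1 / t) ^ (1 / 2 : ℝ) = t ^ (-(1 / 2) : ℝ) := by
        rw [one_div, Real.inv_rpow ht.le, Real.rpow_neg ht.le]
      have e3 : t ^ (-(1 / 2) : ℝ) * t ^ (-(1 / 2) : ℝ) = t⁻¹ := by
        rw [← Real.rpow_add ht, ← Real.rpow_neg_one]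
        norm_num
      rw [e2]
      calc _ = (Real.log (1 / t) + 2) * (t * (1 / t)) - 2 * Real.Gamma (1 / 2) *
            (t * (t ^ (-(1 / 2) : ℝ) * t ^ (-(1 / 2) : ℝ))) := by ring
        _ = _ := by
          rw [e3, mul_inv_cancel₀ ht.ne', mul_one_div_cancel ht.ne']
          ring
    rw [e1] at h2
    linarith
  · have h1 : ∫ T in Ioi (0 : ℝ), Real.exp (-(t * T)) * lgp T ≤
        ∫ T in Ioi (0 : ℝ), (Real.log (1 / t) * Real.exp (-(t * T)) +
          t * (T ^ ((2 : ℝ) - 1) * Real.exp (-(t * T)))) := by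
      refine setIntegral_mono_on hi ((he.const_mul _).add (hi1.const_mul _)) measurableSet_Ioi
        fun T hT => ?_
      have hT0 : (0 : ℝ) < T := hT
      have h2 := lgp_le ht ht1 hT0
      have h3 := mul_le_mul_of_nonneg_left h2 (Real.exp_pos (-(t * T))).le
      have e1 : T ^ ((2 : ℝ) - 1) = T := by
        rw [show (2 : ℝ) - 1 = 1 by norm_num, Real.rpow_one]
      rw [e1]
      calc _ ≤ Real.exp (-(t * T)) * (Real.log (1 / t) + t * T) := h3
        _ = _ := by ring
    rw [integral_add (he.const_mul _) (hi1.const_mul _), integral_const_mul, integral_const_mul, hv,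
      hG1] at h1
    have h2 := mul_le_mul_of_nonneg_left h1 ht.le
    have e0 : Real.Gamma 2 = 1 := Real.Gamma_two
    have e1 : t * (Real.log (1 / t) * (1 / t) + t * ((1 / t) ^ (2 : ℝ) * Real.Gamma 2)) =
        Real.log (1 / t) + 1 := by
      rw [e0]
      have e2 : (1 / t) ^ (2 : ℝ) = (1 / t) ^ (2 : ℕ) := by
        rw [← Real.rpow_natCast]
        norm_num
      rw [e2]
      field_simp
    rw [e1] at h2
    linarith

/-- **The Abelian theorem**: the constant of logarithmic growth is determined by the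
Laplace transform. -/
theorem limit_eq {f : ℝ → ℝ} (hf : AEStronglyMeasurable f (volume.restrict (Ioi 0)))
    (hloc : ∀ T₀ : ℝ, ∃ A : ℝ, ∀ T, 0 < T → T ≤ T₀ → |f T| ≤ A) {ρ m C t₀ : ℝ}
    (hlim : Tendsto (fun T => f T / Real.log T) atTop (𝓝 ρ)) (ht₀ : 0 < t₀)
    (hC : ∀ t : ℝ, 0 < t → t ≤ t₀ →
      |t * (∫ T in Ioi (0 : ℝ), Real.exp (-(t * T)) * f T) - m * Real.log (1 / t)| ≤ C) :
    ρ = m := by
  by_contra hne
  set d : ℝ := |m - ρ| with hd
  have hd0 : 0 < d := abs_pos.2 (sub_ne_zero.2 (Ne.symm hne))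
  set ε : ℝ := d / 2 with hε
  have hε0 : 0 < ε := by positivity
  -- a uniform bound
  obtain ⟨A, hA0, hA⟩ : ∃ A : ℝ, 0 ≤ A ∧ ∀ T, 0 < T → |f T - ρ * lgp T| ≤ A + ε * lgp T := by
    have h1 : ∀ᶠ T in atTop, |f T / Real.log T - ρ| < ε := by
      have := (Metric.tendsto_nhds.1 hlim) ε hε0
      simpa [Real.dist_eq] using this
    obtain ⟨T₀, hT₀⟩ := h1.exists_forall_of_atTop
    set T₁ : ℝ := max T₀ 2 with hT₁
    obtain ⟨A₀, hA₀⟩ := hloc T₁
    refine ⟨|A₀| + |ρ| * lgp T₁, by
      have := lgp_nonneg T₁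
      positivity, fun T hT => ?_⟩
    have hg := lgp_nonneg T
    rcases le_or_gt T T₁ with h2 | h2
    · have h3 := (hA₀ T hT h2).trans (le_abs_self A₀)
      have h4 : lgp T ≤ lgp T₁ := by
        unfold lgp
        exact Real.log_le_log (lt_max_of_lt_right one_pos) (max_le_max_right _ h2)
      calc |f T - ρ * lgp T| ≤ |f T| + |ρ * lgp T| := abs_sub _ _
        _ = |f T| + |ρ| * lgp T := by rw [abs_mul, abs_of_nonneg hg]
        _ ≤ |A₀| + |ρ| * lgp T₁ := by gcongr
        _ ≤ _ := by
          have : 0 ≤ ε * lgp T := by positivity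
          linarith
    · have hT0 : T₀ ≤ T := (le_max_left _ _).trans h2.le
      have hT2 : 2 < T := (le_max_right _ _).trans_lt h2
      have h3 := hT₀ T hT0
      have hl : 0 < Real.log T := Real.log_pos (by linarith)
      have e1 : lgp T = Real.log T := by
        unfold lgp
        rw [max_eq_left (by linarith)]
      rw [e1]
      have h4 : |f T - ρ * Real.log T| = |f T / Real.log T - ρ| * Real.log T := by
        rw [← abs_of_pos hl, ← abs_mul, abs_of_pos hl]
        congr 1
        field_simp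
      rw [h4]
      have h5 : |f T / Real.log T - ρ| * Real.log T ≤ ε * Real.log T :=
        mul_le_mul_of_nonneg_right h3.le hl.le
      have h6 : 0 ≤ |A₀| + |ρ| * lgp T₁ := by
        have := lgp_nonneg T₁
        positivity
      linarith
  set G₀ : ℝ := 2 * Real.Gamma (1 / 2) + 1 with hG₀
  have hG0 : 0 < Real.Gamma (1 / 2) := Real.Gamma_pos_of_pos (by norm_num)
  -- the comparison
  have key : ∀ t : ℝ, 0 < t → t ≤ min t₀ 1 →
      d * Real.log (1 / t) ≤ |C| + A + ε * (Real.log (1 / t) + G₀) + |ρ| * G₀ := by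
    intro t ht ht1
    have ht2 : t ≤ t₀ := ht1.trans (min_le_left _ _)
    have ht3 : t ≤ 1 := ht1.trans (min_le_right _ _)
    have hi := lgp_int ht ht3
    have he := exp_int ht
    have hv := exp_val ht
    have hl := lgp_lap ht ht3
    have hdi : IntegrableOn (fun T : ℝ => Real.exp (-(t * T)) * (f T - ρ * lgp T)) (Ioi 0) := by
      refine Integrable.mono' ((he.const_mul A).add (hi.const_mul ε)) ?_ ?_
      · refine (Measurable.aestronglyMeasurable (by fun_prop)).mul ?_
        refine hf.sub ?_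
        have := lgp_measurable
        exact Measurable.aestronglyMeasurable (by fun_prop)
      · filter_upwards [ae_restrict_mem measurableSet_Ioi] with T hT
        rw [Real.norm_eq_abs, abs_mul, abs_of_pos (Real.exp_pos _)]
        calc Real.exp (-(t * T)) * |f T - ρ * lgp T| ≤ Real.exp (-(t * T)) * (A + ε * lgp T) := by
              gcongr
              exact hA T hT
          _ = _ := by simp only [Pi.add_apply]; ring
    have h1 : ∫ T in Ioi (0 : ℝ), Real.exp (-(t * T)) * f T =
        (∫ T in Ioi (0 : ℝ), Real.exp (-(t * T)) * (f T - ρ * lgp T)) +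
        ρ * ∫ T in Ioi (0 : ℝ), Real.exp (-(t * T)) * lgp T := by
      rw [← integral_const_mul, ← integral_add hdi (hi.const_mul ρ)]
      refine setIntegral_congr_fun measurableSet_Ioi fun T _ => ?_
      ring
    have h2 : |t * ∫ T in Ioi (0 : ℝ), Real.exp (-(t * T)) * (f T - ρ * lgp T)| ≤
        A + ε * (Real.log (1 / t) + G₀) := by
      rw [abs_mul, abs_of_pos ht]
      have h3 : |∫ T in Ioi (0 : ℝ), Real.exp (-(t * T)) * (f T - ρ * lgp T)| ≤
          ∫ T in Ioi (0 : ℝ), (A * Real.exp (-(t * T)) + ε * (Real.exp (-(t * T)) * lgp T)) := by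
        rw [← Real.norm_eq_abs]
        refine norm_integral_le_of_norm_le ((he.const_mul A).add (hi.const_mul ε)) ?_
        filter_upwards [ae_restrict_mem measurableSet_Ioi] with T hT
        rw [Real.norm_eq_abs, abs_mul, abs_of_pos (Real.exp_pos _)]
        calc Real.exp (-(t * T)) * |f T - ρ * lgp T| ≤ Real.exp (-(t * T)) * (A + ε * lgp T) := by
              gcongr
              exact hA T hT
          _ = _ := by ring
      rw [integral_add (he.const_mul A) (hi.const_mul ε), integral_const_mul, integral_const_mul,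
        hv] at h3
      have h4 := mul_le_mul_of_nonneg_left h3 ht.le
      have h5 := (abs_le.1 hl).2
      calc _ ≤ t * (A * (1 / t) + ε * ∫ T in Ioi (0 : ℝ), Real.exp (-(t * T)) * lgp T) := h4
        _ = A * (t * (1 / t)) + ε * (t * ∫ T in Ioi (0 : ℝ), Real.exp (-(t * T)) * lgp T) := by ring
        _ ≤ A + ε * (Real.log (1 / t) + G₀) := by
          rw [mul_one_div_cancel ht.ne', mul_one]
          have : ε * (t * ∫ T in Ioi (0 : ℝ), Real.exp (-(t * T)) * lgp T) ≤
              ε * (Real.log (1 / t) + G₀) := mul_le_mul_of_nonneg_left (by linarith) hε0.le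
          linarith
    have h3 := hC t ht ht2
    have h4 : 0 ≤ Real.log (1 / t) := Real.log_nonneg (by
      rw [le_div_iff₀ ht]; linarith)
    have h5 : (m - ρ) * Real.log (1 / t) =
        -(t * (∫ T in Ioi (0 : ℝ), Real.exp (-(t * T)) * f T) - m * Real.log (1 / t)) +
        (t * ∫ T in Ioi (0 : ℝ), Real.exp (-(t * T)) * (f T - ρ * lgp T)) +
        ρ * (t * (∫ T in Ioi (0 : ℝ), Real.exp (-(t * T)) * lgp T) - Real.log (1 / t)) := by
      rw [h1]
      ring
    have h6 : d * Real.log (1 / t) = |(m - ρ) * Real.log (1 / t)| := by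
      rw [abs_mul, abs_of_nonneg h4]
    rw [h6, h5]
    refine (abs_add_le _ _).trans (add_le_add ((abs_add_le _ _).trans ?_) ?_)
    · rw [abs_neg]
      have := h3.trans (le_abs_self C)
      linarith
    · rw [abs_mul]
      exact mul_le_mul_of_nonneg_left hl (abs_nonneg _)
  -- let `t → 0`
  set K : ℝ := |C| + A + ε * G₀ + |ρ| * G₀ with hK
  have hK0 : 0 ≤ K := by positivity
  set x : ℝ := (K + 1) / ε with hx
  have hx0 : 0 < x := by positivity
  set t : ℝ := min (min t₀ 1) (Real.exp (-x)) with ht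
  have htp : 0 < t := lt_min (lt_min ht₀ one_pos) (Real.exp_pos _)
  have h1 := key t htp (min_le_left _ _)
  have h2 : x ≤ Real.log (1 / t) := by
    rw [one_div, Real.log_inv]
    have h3 : Real.log t ≤ -x := by
      have := Real.log_le_log htp (min_le_right (min t₀ 1) (Real.exp (-x)))
      rwa [Real.log_exp] at this
    linarith
  have h3 : ε * x = K + 1 := by rw [hx]; field_simp
  have h4 : d = 2 * ε := by rw [hε]; ring
  rw [h4] at h1
  nlinarith

end Pool.Agent.TH942.LS
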