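import Pool.Agent.TH942.LS.Curve
import Pool.Agent.TH942.LS.Abel
import Pool.Agent.TH942.LS.LogAb

/-!
# The rank from means which are invariant in the logarithmic scale
-/

set_option autoImplicit false

open MeasureTheory Filter Topology Set Classical
open Pool.Agent.W263.BSD Pool.Agent.W189.ML Pool.Agent.W187.UR

namespace Pool.Agent.TH942.LS

variable {a b : ℤ} {F : ℂ → ℂ}

lemma PhiF_pos (hF : IsLSeries a b F) (hne : ∀ s : ℂ, 0 < s.re → PhiF a b F s ≠ 0) {v : ℝ}
    (hv : 0 < v) : 0 < (PhiF a b F v).re := by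
  by_contra h
  push Not at h
  have hc : ContinuousOn (fun x : ℝ => (PhiF a b F x).re) (Ioi 0) := by
    have h1 : Continuous (PhiF a b F) := (PhiF_differentiable hF).continuous
    exact (Complex.continuous_re.comp (h1.comp Complex.continuous_ofReal)).continuousOn
  have h2 := PhiF_two_pos hF
  have h3 : (0 : ℝ) ∈ (fun x : ℝ => (PhiF a b F x).re) '' Ioi 0 := by
    refine (isPreconnected_Ioi.intermediate_value (show v ∈ Ioi (0 : ℝ) from hv)
      (show (2 : ℝ) ∈ Ioi (0 : ℝ) by simp) hc) ⟨h, ?_⟩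
    simpa using h2.le
  obtain ⟨x, hx, h4⟩ := h3
  refine hne x (by simpa using hx) ?_
  apply Complex.ext
  · simpa using h4
  · simpa using PhiF_real hF x

lemma PhiF_eq_re (hF : IsLSeries a b F) (v : ℝ) :
    PhiF a b F v = (((PhiF a b F v).re : ℝ) : ℂ) := by
  apply Complex.ext
  · simp
  · simpa using PhiF_real hF v

/-- the antiderivative on the real axis -/
noncomputable def JE (a b : ℤ) (F : ℂ → ℂ) (v : ℝ) : ℂ :=
  Complex.log (PhiF a b F v) - GG (SS a b) (Ap a b) v -
    ∑ p ∈ Finset.range 25, (cE a b p : ℂ) * Complex.exp (-((v : ℂ) * lm p))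

theorem JE_deriv (hF : IsLSeries a b F) (hne : ∀ s : ℂ, 0 < s.re → PhiF a b F s ≠ 0) {v : ℝ}
    (hv : 0 < v) : HasDerivAt (JE a b F) (Qf (PhiF a b F) (Kf a b) v) v := by
  have E := eData a b
  have hvc : 0 < (v : ℂ).re := by simpa using hv
  have h0 : HasDerivAt (fun x : ℝ => (x : ℂ)) 1 v := (hasDerivAt_id v).ofReal_comp
  have h1 : HasDerivAt (fun x : ℝ => PhiF a b F x) (deriv (PhiF a b F) v) v := by
    have := (PhiF_differentiable hF (v : ℂ)).hasDerivAt.comp_ofReal
    exact this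
  have h2 : PhiF a b F v ∈ Complex.slitPlane := by
    left
    exact PhiF_pos hF hne hv
  have h3 : HasDerivAt (fun x : ℝ => Complex.log (PhiF a b F x))
      (deriv (PhiF a b F) v / PhiF a b F v) v := h1.clog_real h2
  have h4 : HasDerivAt (fun x : ℝ => GG (SS a b) (Ap a b) x) (deriv (GG (SS a b) (Ap a b)) v) v :=
    (E.GG_differentiable hvc).hasDerivAt.comp_ofReal
  have h5 : ∀ p ∈ Finset.range 25, HasDerivAt (fun x : ℝ => (cE a b p : ℂ) *
      Complex.exp (-((x : ℂ) * lm p)))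
      (-(((cE a b p * lm p : ℝ) : ℂ) * Complex.exp (-((v : ℂ) * lm p)))) v := by
    intro p _
    have h6 := ((h0.mul_const (lm p : ℂ)).neg.cexp).const_mul (cE a b p : ℂ)
    refine h6.congr_deriv ?_
    simp only [Pi.neg_apply]
    push_cast
    ring
  have h6 := HasDerivAt.fun_sum h5
  have h7 := (h3.sub h4).sub h6
  refine h7.congr_deriv ?_
  unfold Qf Kf
  rw [Finset.sum_neg_distrib]
  ring

lemma small_sum_bound (a b : ℤ) {v : ℝ} (hv : 0 ≤ v) :
    ‖∑ p ∈ Finset.range 25, (cE a b p : ℂ) * Complex.exp (-((v : ℂ) * lm p))‖ ≤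
      ∑ p ∈ Finset.range 25, |cE a b p| := by
  refine (norm_sum_le _ _).trans (Finset.sum_le_sum fun p _ => ?_)
  rw [norm_mul, Complex.norm_real, Real.norm_eq_abs, Complex.norm_exp]
  have h1 : (-((v : ℂ) * (lm p : ℂ))).re = -(v * lm p) := by simp
  have h2 : 0 ≤ lm p := by
    have : Real.log 2 ≤ lm p := le_max_right _ _
    have := Real.log_pos (by norm_num : (1 : ℝ) < 2)
    linarith
  rw [h1]
  have h3 : Real.exp (-(v * lm p)) ≤ 1 := Real.exp_le_one_iff.2 (by
    have := mul_nonneg hv h2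
    linarith)
  calc |cE a b p| * Real.exp (-(v * lm p)) ≤ |cE a b p| * 1 := by gcongr
    _ = _ := mul_one _

theorem JE_large (hF : IsLSeries a b F) (hne : ∀ s : ℂ, 0 < s.re → PhiF a b F s ≠ 0) :
    ∃ C : ℝ, ∀ v : ℝ, 1 ≤ v → ‖JE a b F v‖ ≤ C := by
  have E := eData a b
  obtain ⟨CG, hCG⟩ := GG_sector E
  obtain ⟨C₁, hC₁⟩ : ∃ C₁ : ℝ, ∀ v ∈ Icc (1 : ℝ) 2, ‖JE a b F v‖ ≤ C₁ :=
    isCompact_Icc.exists_bound_of_continuousOn fun v hv =>
      (JE_deriv hF hne (by linarith [hv.1] : (0 : ℝ) < v)).continuousAt.continuousWithinAt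
  set S2 : ℝ := ∑' p : ℕ, |cf a b p| * Real.exp (-(2 * Real.log p)) with hS2
  have hs := cf_sum a b 2 (by norm_num)
  refine ⟨max C₁ ((|CG| + S2) + |CG| + ∑ p ∈ Finset.range 25, |cE a b p|), fun v hv => ?_⟩
  rcases le_or_gt v 2 with h | h
  · exact (hC₁ v ⟨hv, h⟩).trans (le_max_left _ _)
  · refine le_trans ?_ (le_max_right _ _)
    have hv0 : 0 < v := by linarith
    have hg : ‖GG (SS a b) (Ap a b) v‖ ≤ |CG| := by
      refine (hCG _ (by simpa using hv0) ?_).trans (le_abs_self _)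
      rw [Complex.norm_real, Real.norm_eq_abs, abs_of_pos hv0, Complex.ofReal_re]
      linarith
    have hser : ‖ser (fun p : ℕ => Real.log p) (cf a b) v‖ ≤ S2 := by
      unfold ser
      refine tsum_of_norm_bounded hs.hasSum fun p => ?_
      rw [norm_mul, Complex.norm_real, Real.norm_eq_abs, Complex.norm_exp]
      refine mul_le_mul_of_nonneg_left (Real.exp_le_exp.2 ?_) (abs_nonneg _)
      have e1 : (-((v : ℂ) * ((Real.log p : ℝ) : ℂ))).re = -(v * Real.log p) := by
        rw [Complex.neg_re, Complex.re_mul_ofReal, Complex.ofReal_re]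
      rw [e1]
      have := Real.log_natCast_nonneg p
      nlinarith
    have hexp := exp_eq E (w := (v : ℂ)) (by simp; linarith) (PhiF_hasProd hF (by simp; linarith))
    have hlog : ‖Complex.log (PhiF a b F v)‖ ≤ |CG| + S2 := by
      have hp := PhiF_pos hF hne hv0
      rw [PhiF_eq_re hF v, ← Complex.ofReal_log hp.le, Complex.norm_real, Real.norm_eq_abs]
      have h1 : (PhiF a b F v).re = ‖PhiF a b F v‖ := by
        conv_rhs => rw [PhiF_eq_re hF v]
        rw [Complex.norm_real, Real.norm_eq_abs, abs_of_pos hp]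
      rw [h1, ← hexp, Complex.norm_exp, Real.log_exp]
      refine (Complex.abs_re_le_norm _).trans ((norm_sub_le _ _).trans (add_le_add hg ?_))
      exact hser
    unfold JE
    refine (norm_sub_le _ _).trans (add_le_add ((norm_sub_le _ _).trans (add_le_add hlog hg)) ?_)
    exact small_sum_bound a b hv0.le

/-- the local structure at the centre -/
theorem center (hF : IsLSeries a b F) (hne : ∀ s : ℂ, 0 < s.re → PhiF a b F s ≠ 0) {m : ℕ}
    (hm : analyticOrderAt F 1 = m) : ∃ Q : ℂ → ℂ, (∀ w, AnalyticAt ℂ Q w) ∧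
      (∀ w, w ≠ 0 → PhiF a b F w = w ^ m * Q w) ∧ ∀ x : ℝ, 0 ≤ x → Q x ≠ 0 := by
  obtain ⟨Q, h1, h2, x₁, h3, h4, -, h5⟩ := exists_Q hF (x₀ := 0) le_rfl zero_le_one
    (m := m) (by simpa using hm) (fun σ hσ h0 => by
      rw [add_zero] at hσ
      refine hne ((σ - 1 : ℝ) : ℂ) (by simpa using hσ) ?_
      unfold PhiF
      have : (1 : ℂ) + ((σ - 1 : ℝ) : ℂ) = σ := by push_cast; ring
      rw [this, h0, zero_mul])
  have hx : x₁ = 0 := le_antisymm h4 h3
  refine ⟨Q, h1, fun w hw => by simpa using h2 w (by simpa using hw), fun x hx0 => ?_⟩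
  rcases hx0.lt_or_eq with h | h
  · intro h6
    refine hne (x : ℂ) (by simpa using h) ?_
    have := h2 x (by simpa using h.ne')
    rw [this, h6, mul_zero]
  · intro h6
    have h7 := (h5 x ⟨by rw [hx, ← h], by linarith⟩).2
    rw [h6] at h7
    simp at h7

theorem JE_small (hF : IsLSeries a b F) (hne : ∀ s : ℂ, 0 < s.re → PhiF a b F s ≠ 0) {m : ℕ}
    (hm : analyticOrderAt F 1 = m) :
    ∃ C : ℝ, ∀ v : ℝ, 0 < v → v ≤ 1 → ‖JE a b F v - (m : ℝ) * Real.log v‖ ≤ C := by
  have E := eData a b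
  obtain ⟨CG, hCG⟩ := GG_sector E
  obtain ⟨Q, h1, h2, h3⟩ := center hF hne hm
  have hcont : ContinuousOn (fun v : ℝ => Real.log ‖Q v‖) (Icc 0 1) := by
    intro v hv
    have h4 : ContinuousAt (fun v : ℝ => Q (v : ℂ)) v :=
      ContinuousAt.comp (f := fun v : ℝ => (v : ℂ)) (h1 v).continuousAt (by fun_prop)
    exact (h4.norm.log (norm_ne_zero_iff.2 (h3 v hv.1))).continuousWithinAt
  obtain ⟨C₁, hC₁⟩ := isCompact_Icc.exists_bound_of_continuousOn hcont
  refine ⟨C₁ + |CG| + ∑ p ∈ Finset.range 25, |cE a b p|, fun v hv hv1 => ?_⟩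
  have hg : ‖GG (SS a b) (Ap a b) v‖ ≤ |CG| := by
    refine (hCG _ (by simpa using hv) ?_).trans (le_abs_self _)
    rw [Complex.norm_real, Real.norm_eq_abs, abs_of_pos hv, Complex.ofReal_re]
    linarith
  have hlog : Complex.log (PhiF a b F v) - (m : ℝ) * Real.log v = ((Real.log ‖Q v‖ : ℝ) : ℂ) := by
    have hp := PhiF_pos hF hne hv
    have hvc : (v : ℂ) ≠ 0 := by exact_mod_cast hv.ne'
    have h4 : (PhiF a b F v).re = ‖PhiF a b F v‖ := by
      conv_rhs => rw [PhiF_eq_re hF v]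
      rw [Complex.norm_real, Real.norm_eq_abs, abs_of_pos hp]
    rw [PhiF_eq_re hF v, ← Complex.ofReal_log hp.le, h4, h2 v hvc, norm_mul, norm_pow,
      Complex.norm_real, Real.norm_eq_abs, abs_of_pos hv,
      Real.log_mul (pow_ne_zero _ hv.ne') (norm_ne_zero_iff.2 (h3 v hv.le)), Real.log_pow]
    push_cast
    ring
  have h5 : JE a b F v - (m : ℝ) * Real.log v = (Complex.log (PhiF a b F v) -
      (m : ℝ) * Real.log v) - GG (SS a b) (Ap a b) v -
      ∑ p ∈ Finset.range 25, (cE a b p : ℂ) * Complex.exp (-((v : ℂ) * lm p)) := by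
    unfold JE
    ring
  rw [h5, hlog]
  refine (norm_sub_le _ _).trans (add_le_add ((norm_sub_le _ _).trans (add_le_add ?_ hg))
    (small_sum_bound a b hv.le))
  rw [Complex.norm_real]
  exact hC₁ v ⟨hv.le, hv1⟩

theorem Qf_real_bound (hF : IsLSeries a b F) (hne : ∀ s : ℂ, 0 < s.re → PhiF a b F s ≠ 0) {m : ℕ}
    (hm : analyticOrderAt F 1 = m) :
    ∃ C : ℝ, ∀ v : ℝ, 0 < v → v * ‖Qf (PhiF a b F) (Kf a b) v‖ ≤ C := by
  have E := eData a b
  obtain ⟨CG, hCG⟩ := GG_sector E
  obtain ⟨Q, h1, h2, h3⟩ := center hF hne hm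
  -- small `v`
  have hcont : ContinuousOn (fun v : ℝ => deriv Q (v : ℂ) / Q v) (Icc 0 3) := by
    intro v hv
    have h4 : ContinuousAt (fun v : ℝ => Q (v : ℂ)) v :=
      ContinuousAt.comp (f := fun v : ℝ => (v : ℂ)) (h1 v).continuousAt (by fun_prop)
    have h5 : ContinuousAt (fun v : ℝ => deriv Q (v : ℂ)) v :=
      ContinuousAt.comp (f := fun v : ℝ => (v : ℂ)) (h1 v).deriv.continuousAt (by fun_prop)
    exact (h5.div h4 (h3 v hv.1)).continuousWithinAt
  obtain ⟨C₁, hC₁⟩ := isCompact_Icc.exists_bound_of_continuousOn hcont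
  set S3 : ℝ := ∑ p ∈ Finset.range 25, |cE a b p| * lm p with hS3
  have hC10 : 0 ≤ C₁ := (norm_nonneg _).trans (hC₁ 0 ⟨le_rfl, by norm_num⟩)
  have hlm : ∀ p : ℕ, 0 ≤ lm p := fun p => by
    have : Real.log 2 ≤ lm p := le_max_right _ _
    have := Real.log_pos (by norm_num : (1 : ℝ) < 2)
    linarith
  have hS30 : 0 ≤ S3 := Finset.sum_nonneg fun p _ => mul_nonneg (abs_nonneg _) (hlm p)
  have hnear : ∀ v : ℝ, 0 < v → v ≤ 3 →
      v * ‖Qf (PhiF a b F) (Kf a b) v‖ ≤ m + 3 * C₁ + 2 * |CG| + 3 * S3 := by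
    intro v hv hv3
    have hvc : (v : ℂ) ≠ 0 := by exact_mod_cast hv.ne'
    -- the logarithmic derivative
    have e1 : deriv (PhiF a b F) v / PhiF a b F v = m / v + deriv Q v / Q v := by
      have h4 : PhiF a b F =ᶠ[𝓝 (v : ℂ)] fun w => w ^ m * Q w := by
        filter_upwards [isOpen_ne.mem_nhds hvc] with w hw
        exact h2 w hw
      have h5 : HasDerivAt (fun w : ℂ => w ^ m * Q w)
          ((m * (v : ℂ) ^ (m - 1) * 1) * Q v + (v : ℂ) ^ m * deriv Q v) v :=
        ((hasDerivAt_id (v : ℂ)).pow m).mul (h1 v).differentiableAt.hasDerivAt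
      rw [h4.deriv_eq, h4.eq_of_nhds, h5.deriv]
      have hQ := h3 v hv.le
      rcases Nat.eq_zero_or_pos m with hm0 | hm0
      · rw [hm0]
        simp
      · obtain ⟨k, hk⟩ : ∃ k, m = k + 1 := ⟨m - 1, by omega⟩
        rw [hk]
        simp only [Nat.add_sub_cancel]
        push_cast
        field_simp
        ring
    -- the derivative of `GG`
    have e2 : ‖deriv (GG (SS a b) (Ap a b)) v‖ ≤ |CG| / (v / 2) := by
      have hball : ∀ z : ℂ, z ∈ Metric.closedBall (v : ℂ) (v / 2) → 0 < z.re ∧ ‖z‖ ≤ 5 * z.re := by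
        intro z hz
        rw [Metric.mem_closedBall, Complex.dist_eq] at hz
        have h4 := (abs_le.1 ((Complex.abs_re_le_norm _).trans hz)).1
        simp only [Complex.sub_re, Complex.ofReal_re] at h4
        have h5 : ‖z‖ ≤ v + v / 2 := by
          have := norm_add_le (z - v) (v : ℂ)
          rw [sub_add_cancel, Complex.norm_real, Real.norm_eq_abs, abs_of_pos hv] at this
          linarith
        exact ⟨by linarith, by linarith⟩
      refine Complex.norm_deriv_le_of_forall_mem_sphere_norm_le (by positivity) ?_ fun z hz => ?_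
      · refine DifferentiableOn.diffContOnCl fun z hz => ?_
        rw [closure_ball _ (by positivity)] at hz
        exact (E.GG_differentiable (hball z hz).1).differentiableWithinAt
      · obtain ⟨h4, h5⟩ := hball z (Metric.sphere_subset_closedBall hz)
        exact (hCG z h4 h5).trans (le_abs_self _)
    have e3 : ‖∑ p ∈ Finset.range 25, ((cE a b p * lm p : ℝ) : ℂ) *
        Complex.exp (-((v : ℂ) * lm p))‖ ≤ S3 := by
      refine (norm_sum_le _ _).trans (Finset.sum_le_sum fun p _ => ?_)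
      rw [norm_mul, Complex.norm_real, Real.norm_eq_abs, Complex.norm_exp, abs_mul,
        abs_of_nonneg (hlm p)]
      have h4 : (-((v : ℂ) * (lm p : ℂ))).re = -(v * lm p) := by simp
      rw [h4]
      have h5 : Real.exp (-(v * lm p)) ≤ 1 := Real.exp_le_one_iff.2 (by
        have := mul_nonneg hv.le (hlm p)
        linarith)
      calc |cE a b p| * lm p * Real.exp (-(v * lm p)) ≤ |cE a b p| * lm p * 1 := by
            have := hlm p
            gcongr
        _ = _ := mul_one _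
    unfold Qf Kf
    rw [e1]
    have e4 : ‖(m : ℂ) / v‖ = m / v := by
      rw [norm_div, Complex.norm_natCast, Complex.norm_real, Real.norm_eq_abs, abs_of_pos hv]
    have e5 := hC₁ v ⟨hv.le, hv3⟩
    have e6 : ‖(m : ℂ) / v + deriv Q v / Q v - (deriv (GG (SS a b) (Ap a b)) v -
        ∑ p ∈ Finset.range 25, ((cE a b p * lm p : ℝ) : ℂ) * Complex.exp (-((v : ℂ) * lm p)))‖ ≤
        m / v + C₁ + (|CG| / (v / 2) + S3) := by
      refine (norm_sub_le _ _).trans (add_le_add ?_ ((norm_sub_le _ _).trans (add_le_add e2 e3)))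
      rw [← e4]
      exact (norm_add_le _ _).trans (add_le_add le_rfl e5)
    calc v * _ ≤ v * (m / v + C₁ + (|CG| / (v / 2) + S3)) := mul_le_mul_of_nonneg_left e6 hv.le
      _ = m + v * C₁ + 2 * |CG| + v * S3 := by
        field_simp
        ring
      _ ≤ _ := by
        have := mul_le_mul_of_nonneg_right hv3 hC10
        have := mul_le_mul_of_nonneg_right hv3 hS30
        linarith
  -- large `v`
  have D := dat a b
  have H := cont hF (θ := 0) le_rfl
  set S₀ : ℝ := ∑' n, |cE a b n| * Real.exp (-(2 * lm n)) with hS0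
  have hS00 : 0 ≤ S₀ := tsum_nonneg fun n => by positivity
  have hl2 := D.δ0
  refine ⟨max (m + 3 * C₁ + 2 * |CG| + 3 * S3) (3 * (2 / Real.log 2 * S₀)), fun v hv => ?_⟩
  rcases le_or_gt v 3 with h | h
  · exact (hnear v hv h).trans (le_max_left _ _)
  · refine le_trans ?_ (le_max_right _ _)
    have h4 : (2 : ℝ) < (v : ℂ).re := by simp; linarith
    have h5 : Qf (PhiF a b F) (Kf a b) v = P lm (cE a b) v := (H.eq _ h4).symm
    have h6 := P_le D h4
    rw [← hS0, Complex.ofReal_re] at h6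
    rw [h5]
    have h7 : 0 < v - 2 := by linarith
    calc v * ‖P lm (cE a b) v‖ ≤ v * (2 / Real.log 2 * S₀ / (v - 2) ^ 2) := by gcongr
      _ = (v / (v - 2) ^ 2) * (2 / Real.log 2 * S₀) := by ring
      _ ≤ 3 * (2 / Real.log 2 * S₀) := by
        refine mul_le_mul_of_nonneg_right ?_ (by positivity)
        rw [div_le_iff₀ (by positivity)]
        nlinarith

/-- **The constant of logarithmic growth of the means is the order of vanishing.** -/
theorem growth_eq_order (hF : IsLSeries a b F) (hne : ∀ s : ℂ, 0 < s.re → PhiF a b F s ≠ 0) {m : ℕ}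
    (hm : analyticOrderAt F 1 = m) {w : ℝ → ℝ} {W β : ℝ} (hw : Wt w W β)
    (hdini : IntegrableOn (fun u : ℝ => |w u - 1| / u) (Ioo 0 β)) {ρ : ℝ}
    (hlim : Tendsto (fun T => S lm (cE a b) w T / Real.log T) atTop (𝓝 ρ)) : ρ = m := by
  have D := dat a b
  have H := cont hF (θ := 0) le_rfl
  have hb := hw.b0
  obtain ⟨CQ, hCQ⟩ := Qf_real_bound hF hne hm
  obtain ⟨C1, hC1⟩ := JE_large hF hne
  obtain ⟨C0, hC0⟩ := JE_small hF hne hm
  have hlog : ∀ T : ℝ, 2 ≤ T → Real.log T ≤ T := fun T hT => by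
    have := Real.log_le_sub_one_of_pos (by linarith : 0 < T)
    linarith
  -- growth
  have hS : ∀ α, 0 < α → ∃ C T₀ : ℝ, ∀ T, T₀ ≤ T →
      |S lm (cE a b) w T| ≤ C * Real.exp (α * T) := by
    intro α hα
    have h1 : ∀ᶠ T in atTop, |S lm (cE a b) w T / Real.log T - ρ| < 1 := by
      have := (Metric.tendsto_nhds.1 hlim) 1 one_pos
      simpa [Real.dist_eq] using this
    obtain ⟨T₀, hT₀⟩ := h1.exists_forall_of_atTop
    refine ⟨(|ρ| + 1) / α, max T₀ 2, fun T hT => ?_⟩
    have h2 := hT₀ T ((le_max_left _ _).trans hT)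
    have h3 : 2 ≤ T := (le_max_right _ _).trans hT
    have h4 : 0 < Real.log T := Real.log_pos (by linarith)
    have h5 : |S lm (cE a b) w T / Real.log T| ≤ |ρ| + 1 := by
      have := abs_sub_abs_le_abs_sub (S lm (cE a b) w T / Real.log T) ρ
      linarith
    rw [abs_div, abs_of_pos h4, div_le_iff₀ h4] at h5
    have h6 := hlog T h3
    have h7 : α * T ≤ Real.exp (α * T) := by
      have := Real.add_one_le_exp (α * T)
      linarith
    calc |S lm (cE a b) w T| ≤ (|ρ| + 1) * Real.log T := h5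
      _ ≤ (|ρ| + 1) * T := by gcongr
      _ = (|ρ| + 1) / α * (α * T) := by field_simp
      _ ≤ _ := by gcongr
  obtain ⟨C, hC⟩ := EE_asymp D hw H hne hCQ (J := JE a b F) (fun v hv => JE_deriv hF hne hv)
    (m := m) (CJ := max C1 C0) (fun v hv => (hC1 v hv).trans (le_max_left _ _))
    (fun v hv hv1 => (hC0 v hv hv1).trans (le_max_right _ _)) hdini
  refine limit_eq (S_meas D hw) (fun T₀ => ?_) hlim hb (C := C) fun t ht htb => ?_
  · refine ⟨W * Real.exp (2 * β * |T₀|) * ∑' n, |cE a b n| * Real.exp (-(2 * lm n)),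
      fun T hT hT0 => (S_le D hw hT).trans ?_⟩
    have hW := hw.W0
    have h1 : T ≤ |T₀| := hT0.trans (le_abs_self _)
    have h2 : 0 ≤ ∑' n, |cE a b n| * Real.exp (-(2 * lm n)) := tsum_nonneg fun n => by positivity
    gcongr
  · have h1 := hC t ht htb
    rw [← L_real D hw H hne hS ht] at h1
    have h2 : (t : ℂ) * L lm (cE a b) w t + ((m : ℝ) : ℂ) * Real.log t =
        ((t * (∫ T in Ioi (0 : ℝ), Real.exp (-(t * T)) * S lm (cE a b) w T) -
          m * Real.log (1 / t) : ℝ) : ℂ) := by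
      unfold L
      have h3 : ∀ T : ℝ, Complex.exp (-((t : ℂ) * T)) * (S lm (cE a b) w T : ℂ) =
          ((Real.exp (-(t * T)) * S lm (cE a b) w T : ℝ) : ℂ) := fun T => by push_cast; rfl
      simp only [h3]
      rw [integral_complex_ofReal, one_div, Real.log_inv]
      push_cast
      ring
    rw [h2, Complex.norm_real, Real.norm_eq_abs] at h1
    exact h1

end Pool.Agent.TH942.LS
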