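import Pool.Agent.TH942.LS.Lap

/-!
# The cone around the outermost zero on a ray
-/

set_option autoImplicit false

open MeasureTheory Filter Topology Set Complex

namespace Pool.Agent.TH942.LS

/-- continuation of the Dirichlet series: its derivative is `K - Ψ'/Ψ` -/
structure Cont (lam c : ℕ → ℝ) (σ θ : ℝ) (Ψ Kf : ℂ → ℂ) : Prop where
  θ0 : 0 ≤ θ
  Ψd : ∀ s : ℂ, θ < s.re → DifferentiableAt ℂ Ψ s
  Kd : ∀ s : ℂ, θ < s.re → DifferentiableAt ℂ Kf s
  ne : ∀ s : ℂ, σ < s.re → Ψ s ≠ 0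
  eq : ∀ s : ℂ, σ < s.re → P lam c s = deriv Ψ s / Ψ s - Kf s

variable {lam c : ℕ → ℝ} {δ σ W b θ : ℝ} {w : ℝ → ℝ} {Ψ Kf : ℂ → ℂ}

lemma Cont.analytic (H : Cont lam c σ θ Ψ Kf) {s : ℂ} (hs : θ < s.re) : AnalyticAt ℂ Ψ s := by
  have ho : IsOpen {z : ℂ | θ < z.re} := isOpen_lt continuous_const Complex.continuous_re
  have h : DifferentiableOn ℂ Ψ {z : ℂ | θ < z.re} := fun z hz => (H.Ψd z hz).differentiableWithinAt
  exact h.analyticAt (ho.mem_nhds hs)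

/-- the outermost zero on a ray -/
theorem outermost (H : Cont lam c σ θ Ψ Kf) {s₀ : ℂ} (hs : θ < s₀.re) (h0 : Ψ s₀ = 0) :
    ∃ s₁ : ℂ, θ < s₁.re ∧ Ψ s₁ = 0 ∧ ∀ v : ℝ, 1 < v → Ψ (v * s₁) ≠ 0 := by
  have hpos : 0 < s₀.re := H.θ0.trans_lt hs
  have hσ : s₀.re ≤ σ := by
    by_contra h
    exact H.ne s₀ (not_le.1 h) h0
  set R : ℝ := σ / s₀.re + 1 with hR
  have hR1 : σ < R * s₀.re := by
    rw [hR, add_mul, div_mul_cancel₀ _ hpos.ne']
    linarith
  have hR2 : 1 ≤ R := by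
    have : 0 ≤ σ / s₀.re := div_nonneg (hpos.le.trans hσ) hpos.le
    linarith
  have hre : ∀ r : ℝ, ((r : ℂ) * s₀).re = r * s₀.re := fun r => by simp
  set Z : Set ℝ := {r | r ∈ Icc 1 R ∧ Ψ (r * s₀) = 0} with hZ
  have hcont : ContinuousOn (fun r : ℝ => Ψ (r * s₀)) (Icc 1 R) := by
    intro r hr
    have h1 : θ < ((r : ℂ) * s₀).re := by
      rw [hre]
      nlinarith [hr.1]
    have h2 : ContinuousAt Ψ ((r : ℂ) * s₀) := (H.Ψd _ h1).continuousAt
    exact (ContinuousAt.comp (f := fun r : ℝ => (r : ℂ) * s₀) h2 (by fun_prop)).continuousWithinAt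
  have hZc : IsCompact Z := by
    have h1 : IsClosed (Icc 1 R ∩ (fun r : ℝ => Ψ (r * s₀)) ⁻¹' {0}) :=
      hcont.preimage_isClosed_of_isClosed isClosed_Icc isClosed_singleton
    refine isCompact_Icc.of_isClosed_subset h1 (fun r hr => hr.1)
  have hne : Z.Nonempty := ⟨1, ⟨le_rfl, hR2⟩, by simpa using h0⟩
  have h1 := hZc.sSup_mem hne
  set r₁ := sSup Z with hr₁
  have hr1 : 1 ≤ r₁ := h1.1.1
  refine ⟨r₁ * s₀, ?_, h1.2, fun v hv h2 => ?_⟩
  · rw [hre]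
    nlinarith
  · have h3 : (v : ℂ) * (r₁ * s₀) = ((v * r₁ : ℝ) : ℂ) * s₀ := by push_cast; ring
    rw [h3] at h2
    have h4 : r₁ < v * r₁ := by nlinarith
    by_cases h5 : v * r₁ ≤ R
    · have h6 : v * r₁ ∈ Z := ⟨⟨by linarith, h5⟩, h2⟩
      have := le_csSup hZc.bddAbove h6
      linarith
    · push Not at h5
      refine H.ne _ ?_ h2
      rw [hre]
      have := mul_lt_mul_of_pos_right h5 hpos
      linarith

/-- zeros are isolated -/
theorem isolated (H : Cont lam c σ θ Ψ Kf) {s₁ : ℂ} (hs : θ < s₁.re) :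
    ∀ᶠ s in 𝓝[≠] s₁, Ψ s ≠ 0 := by
  rcases (H.analytic hs).eventually_eq_zero_or_eventually_ne_zero with h | h
  · exfalso
    have hc : Convex ℝ {z : ℂ | θ < z.re} := convex_halfSpace_re_gt θ
    have h1 : AnalyticOnNhd ℂ Ψ {z : ℂ | θ < z.re} := fun z hz => H.analytic hz
    have h2 := h1.eqOn_zero_of_preconnected_of_eventuallyEq_zero hc.isPreconnected hs h
    have h3 : max θ σ < ((max θ σ + 1 : ℝ) : ℂ).re := by simp
    exact H.ne _ ((le_max_right _ _).trans_lt h3) (h2 ((le_max_left θ σ).trans_lt h3))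
  · exact h

/-- the cone -/
def cone (κ η : ℝ) : Set ℂ := {v | κ ≤ v.re ∧ |v.im| ≤ η * v.re}

/-- existence of the cone -/
theorem exists_cone (H : Cont lam c σ θ Ψ Kf) (hσ : 0 < σ) {s₁ : ℂ} (hs : θ < s₁.re)
    (hv : ∀ v : ℝ, 1 < v → Ψ (v * s₁) ≠ 0) :
    ∃ κ η V : ℝ, 0 < κ ∧ κ < 1 ∧ 0 < η ∧ η ≤ 1 ∧ 2 ≤ V ∧
      (∀ v ∈ cone κ η, θ < (v * s₁).re ∧ (v ≠ 1 → Ψ (v * s₁) ≠ 0)) ∧
      (∀ v ∈ cone κ η, V ≤ v.re → σ + 1 ≤ (v * s₁).re ∧ v.re * s₁.re / 2 ≤ (v * s₁).re) := by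
  have hpos : 0 < s₁.re := H.θ0.trans_lt hs
  have hiso := isolated H hs
  set U : Set ℂ := {v | θ < (v * s₁).re ∧ (v ≠ 1 → Ψ (v * s₁) ≠ 0)} with hU
  have hs0 : s₁ ≠ 0 := by
    intro h
    rw [h] at hpos
    simp at hpos
  -- `U` is open
  have hUo : IsOpen U := by
    rw [isOpen_iff_mem_nhds]
    intro v hvU
    have hm : Continuous fun v : ℂ => v * s₁ := by fun_prop
    have e1 : ∀ᶠ x in 𝓝 v, θ < (x * s₁).re := by
      have ho : IsOpen {x : ℂ | θ < (x * s₁).re} := isOpen_lt continuous_const (by fun_prop)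
      exact ho.mem_nhds hvU.1
    by_cases h1 : v = 1
    · have e2 : ∀ᶠ x in 𝓝 v, x ≠ 1 → Ψ (x * s₁) ≠ 0 := by
        rw [h1]
        have h2 : ∀ᶠ s in 𝓝 s₁, s ≠ s₁ → Ψ s ≠ 0 := by
          rwa [eventually_nhdsWithin_iff] at hiso
        have h3 : Tendsto (fun v : ℂ => v * s₁) (𝓝 1) (𝓝 s₁) := by
          have := hm.tendsto 1
          simpa using this
        filter_upwards [h3.eventually h2] with x hx hx1
        refine hx fun h4 => hx1 ?_
        exact mul_right_cancel₀ hs0 (by rw [h4, one_mul])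
      filter_upwards [e1, e2] with x h3 h4
      exact ⟨h3, h4⟩
    · have h2 := hvU.2 h1
      have h3 : ContinuousAt (fun x : ℂ => Ψ (x * s₁)) v :=
        ContinuousAt.comp (f := fun x : ℂ => x * s₁) (H.Ψd _ hvU.1).continuousAt hm.continuousAt
      filter_upwards [e1, h3.eventually_ne h2] with x h4 h5
      exact ⟨h4, fun _ => h5⟩
  -- near `1`
  obtain ⟨ρ₀, hρ₀, hnear⟩ : ∃ ρ₀ > 0, ∀ v : ℂ, dist v 1 < ρ₀ → v ∈ U :=
    Metric.isOpen_iff.1 hUo 1 ⟨by simpa using hs, fun h => absurd rfl h⟩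
  set δ₁ : ℝ := min (1 / 2) (ρ₀ / 2) with hδ₁
  have hδ0 : 0 < δ₁ := lt_min (by norm_num) (by positivity)
  have hδ1 : δ₁ ≤ 1 / 2 := min_le_left _ _
  have hδ2 : δ₁ ≤ ρ₀ / 2 := min_le_right _ _
  set V : ℝ := max 2 (2 * (σ + 1) / s₁.re) with hV
  have hV2 : 2 ≤ V := le_max_left _ _
  have hVs : 2 * (σ + 1) ≤ V * s₁.re := by
    have : 2 * (σ + 1) / s₁.re ≤ V := le_max_right _ _
    rwa [div_le_iff₀ hpos] at this
  set Ic : Set ℂ := (fun x : ℝ => (x : ℂ)) '' Icc (1 - δ₁) V with hIc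
  have hIcc : IsCompact Ic := isCompact_Icc.image (by fun_prop)
  have hIU : Ic ⊆ U := by
    rintro _ ⟨x, hx, rfl⟩
    rcases le_or_gt x 1 with h | h
    · apply hnear
      have : dist (x : ℂ) 1 = |x - 1| := by
        rw [Complex.dist_eq, show (x : ℂ) - 1 = ((x - 1 : ℝ) : ℂ) by push_cast; rfl,
          Complex.norm_real, Real.norm_eq_abs]
      rw [this, abs_of_nonpos (by linarith)]
      linarith [hx.1]
    · refine ⟨?_, fun _ => hv x h⟩
      have : ((x : ℂ) * s₁).re = x * s₁.re := by simp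
      rw [this]
      nlinarith
  obtain ⟨ε, hε, hsub⟩ := hIcc.exists_cthickening_subset_open hUo hIU
  set η : ℝ := min 1 (min (ε / V) (s₁.re / (2 * (|s₁.im| + 1)))) with hη
  have hV0 : 0 < V := by linarith
  have hη0 : 0 < η := lt_min one_pos (lt_min (by positivity) (by positivity))
  have hη1 : η ≤ 1 := min_le_left _ _
  have hη2 : η ≤ ε / V := (min_le_right _ _).trans (min_le_left _ _)
  have hη3 : η ≤ s₁.re / (2 * (|s₁.im| + 1)) := (min_le_right _ _).trans (min_le_right _ _)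
  have hη4 : η * |s₁.im| ≤ s₁.re / 2 := by
    rw [le_div_iff₀ (by positivity)] at hη3
    have := abs_nonneg s₁.im
    nlinarith
  have hfar : ∀ v ∈ cone (1 - δ₁) η, V ≤ v.re →
      σ + 1 ≤ (v * s₁).re ∧ v.re * s₁.re / 2 ≤ (v * s₁).re := by
    intro v hv hVv
    have hv0 : 0 < v.re := by linarith
    have e1 : (v * s₁).re = v.re * s₁.re - v.im * s₁.im := Complex.mul_re _ _
    have e2 : v.im * s₁.im ≤ v.re * (s₁.re / 2) := by
      calc v.im * s₁.im ≤ |v.im * s₁.im| := le_abs_self _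
        _ = |v.im| * |s₁.im| := abs_mul _ _
        _ ≤ (η * v.re) * |s₁.im| := mul_le_mul_of_nonneg_right hv.2 (abs_nonneg _)
        _ = v.re * (η * |s₁.im|) := by ring
        _ ≤ _ := mul_le_mul_of_nonneg_left hη4 hv0.le
    have e3 : v.re * s₁.re / 2 ≤ (v * s₁).re := by rw [e1]; linarith
    refine ⟨?_, e3⟩
    have : V * s₁.re ≤ v.re * s₁.re := mul_le_mul_of_nonneg_right hVv hpos.le
    linarith
  refine ⟨1 - δ₁, η, V, by linarith, by linarith, hη0, hη1, hV2, fun v hv => ?_, hfar⟩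
  rcases le_or_gt v.re V with h | h
  · have h1 : v ∈ U := by
      apply hsub
      refine Metric.mem_cthickening_of_dist_le v (v.re : ℂ) ε Ic ⟨v.re, ⟨hv.1, h⟩, rfl⟩ ?_
      rw [Complex.dist_eq]
      have h2 : v - (v.re : ℂ) = (v.im : ℂ) * I := by
        apply Complex.ext <;> simp
      rw [h2, norm_mul, Complex.norm_I, mul_one, Complex.norm_real, Real.norm_eq_abs]
      refine hv.2.trans ?_
      have hv0 : 0 ≤ v.re := by linarith [hv.1]
      calc η * v.re ≤ (ε / V) * V := mul_le_mul hη2 h hv0 (by positivity)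
        _ = ε := div_mul_cancel₀ _ hV0.ne'
    exact h1
  · obtain ⟨h1, -⟩ := hfar v hv h.le
    have h2 : s₁.re ≤ σ ∨ σ < s₁.re := le_or_gt _ _
    have h3 : σ < (v * s₁).re := by linarith
    refine ⟨?_, fun _ => H.ne _ h3⟩
    obtain ⟨-, h4⟩ := hfar v hv h.le
    have : s₁.re ≤ v.re * s₁.re / 2 := by nlinarith
    linarith

end Pool.Agent.TH942.LS
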