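import Pool.Agent.HopfPinch.AnS1

/-!
# Cauchy transforms which continue across an interval
-/

set_option autoImplicit false

open MeasureTheory Filter Topology Set Complex
open scoped ContDiff

namespace Pool.Agent.TH942.LS

/-- the Cauchy transform of the restriction of `w` to `(0, b)` -/
noncomputable def cau (w : ℝ → ℝ) (b : ℝ) (z : ℂ) : ℂ := ∫ u in Ioo 0 b, (w u : ℂ) / (z - u)

variable {w : ℝ → ℝ} {W b κ : ℝ}

lemma sub_ne {z : ℂ} (h : z.im ≠ 0) (u : ℝ) : z - u ≠ 0 := by
  intro h1
  have := congrArg Complex.im h1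
  simp at this
  exact h this

lemma im_le_norm_sub (z : ℂ) (u : ℝ) : |z.im| ≤ ‖z - u‖ := by
  have := Complex.abs_im_le_norm (z - u)
  simpa using this

lemma cau_integrable (hw : Measurable w) (hW : ∀ u, |w u| ≤ W) {z : ℂ} (hz : z.im ≠ 0) :
    IntegrableOn (fun u : ℝ => (w u : ℂ) / (z - u)) (Ioo 0 b) := by
  refine Integrable.mono' (g := fun _ => W / |z.im|) (integrableOn_const (by simp) (by simp)) ?_ ?_
  · refine (Measurable.div (by fun_prop) (by fun_prop)).aestronglyMeasurable
  · refine ae_of_all _ fun u => ?_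
    rw [norm_div, Complex.norm_real, Real.norm_eq_abs]
    have h1 := im_le_norm_sub z u
    have h2 : 0 < |z.im| := abs_pos.2 hz
    have h3 : 0 ≤ W := (abs_nonneg _).trans (hW 0)
    exact div_le_div₀ h3 (hW u) h2 h1

theorem cau_diff (hw : Measurable w) (hW : ∀ u, |w u| ≤ W) {z : ℂ} (hz : z.im ≠ 0) :
    DifferentiableAt ℂ (cau w b) z := by
  set ε : ℝ := |z.im| / 2 with hε
  have h0 : 0 < |z.im| := abs_pos.2 hz
  have hε0 : 0 < ε := by positivity
  set O : Set ℂ := {v | ε < |v.im|} with hO
  have hOo : IsOpen O := isOpen_lt continuous_const (by fun_prop)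
  have hne : ∀ v ∈ O, v.im ≠ 0 := fun v hv h => by
    have : ε < |v.im| := hv
    rw [h, abs_zero] at this
    linarith
  have h3 : 0 ≤ W := (abs_nonneg _).trans (hW 0)
  have h := Pool.Agent.HP.differentiableOn_integral (volume.restrict (Ioo 0 b))
    (fun (u : ℝ) (v : ℂ) => (w u : ℂ) / (v - u)) O hOo
    (fun v _ => (Measurable.div (by fun_prop) (by fun_prop)).aestronglyMeasurable)
    (fun u v hv => by
      have h5 := sub_ne (hne v hv) u
      have h6 : DifferentiableAt ℂ (fun v : ℂ => (w u : ℂ) / (v - u)) v :=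
        DifferentiableAt.div (by fun_prop) (by fun_prop) h5
      exact h6.differentiableWithinAt)
    (fun _ => W / ε) (integrable_const _) (fun u v hv => by
      rw [norm_div, Complex.norm_real, Real.norm_eq_abs]
      have h1 := im_le_norm_sub v u
      have h2 : ε < |v.im| := hv
      exact div_le_div₀ h3 (hW u) hε0 (h2.le.trans h1))
  exact h.differentiableAt (hOo.mem_nhds (show ε < |z.im| by rw [hε]; linarith))

/-- the Poisson kernel -/
noncomputable def poi (y x : ℝ) : ℝ := y / (x ^ 2 + y ^ 2)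

lemma poi_nonneg {y : ℝ} (hy : 0 < y) (x : ℝ) : 0 ≤ poi y x := by unfold poi; positivity

lemma poi_le {y : ℝ} (hy : 0 < y) (x : ℝ) : poi y x ≤ 1 / y := by
  unfold poi
  rw [div_le_div_iff₀ (by positivity) hy]
  nlinarith [sq_nonneg x]

lemma poi_continuous {y : ℝ} (hy : 0 < y) : Continuous (poi y) := by
  unfold poi
  exact continuous_const.div (by fun_prop) fun x => by positivity

lemma ker_eq {x y u : ℝ} (hy : 0 < y) :
    (1 : ℂ) / ((x : ℂ) - y * I - u) - 1 / ((x : ℂ) + y * I - u) = 2 * I * (poi y (x - u) : ℝ) := by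
  have h1 : (x : ℂ) - y * I - u ≠ 0 := by
    refine sub_ne ?_ u
    simp
    exact hy.ne'
  have h2 : (x : ℂ) + y * I - u ≠ 0 := by
    refine sub_ne ?_ u
    simp
    exact hy.ne'
  have h3 : ((x - u : ℂ) ^ 2 + y ^ 2) = ((x : ℂ) - y * I - u) * ((x : ℂ) + y * I - u) := by
    ring_nf
    rw [I_sq]
    ring
  unfold poi
  push_cast
  rw [h3]
  field_simp
  ring

/-- convolution with the Poisson kernel -/
lemma poi_conv {φ : ℝ → ℝ} (hφ : Continuous φ) (hc : HasCompactSupport φ) {y : ℕ → ℝ}
    (hy : ∀ n, 0 < y n) (hy0 : Tendsto y atTop (𝓝 0)) (u : ℝ) :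
    (∀ n, |∫ x, φ x * poi (y n) (x - u)| ≤ Real.pi * (⨆ x, |φ x|)) ∧
    Tendsto (fun n => ∫ x, φ x * poi (y n) (x - u)) atTop (𝓝 (Real.pi * φ u)) := by
  obtain ⟨M, hM⟩ := hφ.bounded_above_of_compact_support hc
  have hbd : BddAbove (Set.range fun x => |φ x|) := ⟨M, by
    rintro _ ⟨x, rfl⟩
    exact hM x⟩
  set B := ⨆ x, |φ x| with hB
  have hle : ∀ x, |φ x| ≤ B := fun x => le_ciSup hbd x
  have hB0 : 0 ≤ B := (abs_nonneg _).trans (hle 0)
  have hsub : ∀ n, ∫ x, φ x * poi (y n) (x - u) = ∫ s, φ (u + y n * s) * (1 + s ^ 2)⁻¹ := by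
    intro n
    have h0 := hy n
    have h1 : ∫ x, φ x * poi (y n) (x - u) = ∫ x, φ (x + u) * poi (y n) x := by
      rw [← integral_add_right_eq_self (fun x => φ x * poi (y n) (x - u)) u]
      simp
    have h2 := Measure.integral_comp_mul_left (fun x => φ (x + u) * poi (y n) x) (y n)
    rw [h1]
    have h3 : ∫ x, φ (x + u) * poi (y n) x =
        y n * ∫ s, φ (y n * s + u) * poi (y n) (y n * s) := by
      rw [h2, abs_of_pos (by positivity), smul_eq_mul, ← mul_assoc, mul_inv_cancel₀ h0.ne', one_mul]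
    rw [h3, ← integral_const_mul]
    refine integral_congr_ae (ae_of_all _ fun s => ?_)
    simp only
    unfold poi
    rw [add_comm u]
    field_simp
    ring
  have hbound : ∀ n s, ‖φ (u + y n * s) * (1 + s ^ 2)⁻¹‖ ≤ B * (1 + s ^ 2)⁻¹ := by
    intro n s
    have h5 : (0 : ℝ) < (1 + s ^ 2)⁻¹ := by positivity
    rw [norm_mul, Real.norm_eq_abs, Real.norm_eq_abs, abs_of_pos h5]
    exact mul_le_mul_of_nonneg_right (hle _) h5.le
  have hint : Integrable fun s : ℝ => B * (1 + s ^ 2)⁻¹ := integrable_inv_one_add_sq.const_mul _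
  constructor
  · intro n
    rw [hsub n, ← Real.norm_eq_abs]
    refine (norm_integral_le_of_norm_le hint (ae_of_all _ (hbound n))).trans ?_
    rw [integral_const_mul, integral_univ_inv_one_add_sq, mul_comm]
  · have h1 : Tendsto (fun n => ∫ s, φ (u + y n * s) * (1 + s ^ 2)⁻¹) atTop
        (𝓝 (∫ s : ℝ, φ u * (1 + s ^ 2)⁻¹)) := by
      refine tendsto_integral_of_dominated_convergence (fun s => B * (1 + s ^ 2)⁻¹)
        (fun n => ?_) hint (fun n => ae_of_all _ (hbound n)) (ae_of_all _ fun s => ?_)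
      · refine Continuous.aestronglyMeasurable ?_
        refine (hφ.comp (by fun_prop)).mul ?_
        exact Continuous.inv₀ (by fun_prop) fun s => by positivity
      · refine Tendsto.mul_const _ ?_
        have h2 : Tendsto (fun n => u + y n * s) atTop (𝓝 (u + 0 * s)) :=
          (hy0.mul_const s).const_add u
        rw [zero_mul, add_zero] at h2
        exact (hφ.tendsto u).comp h2
    rw [integral_const_mul, integral_univ_inv_one_add_sq, mul_comm] at h1
    simpa only [hsub] using h1

/-- **A function whose Cauchy transform continues across an interval vanishes there.** -/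
theorem jump (hw : Measurable w) (hW : ∀ u, |w u| ≤ W) (h0 : 0 ≤ κ) {g : ℂ → ℂ}
    {O : Set ℂ} (hO : IsOpen O) (hg : ContinuousOn g O) (hsub : ∀ x : ℝ, κ < x → x < b → (x : ℂ) ∈ O)
    (heq : ∀ z ∈ O, z.im ≠ 0 → cau w b z = g z) : ∀ᵐ x, x ∈ Ioo κ b → w x = 0 := by
  have hW0 : 0 ≤ W := (abs_nonneg _).trans (hW 0)
  have hloc : LocallyIntegrable w := by
    intro x
    refine ⟨Metric.ball x 1, Metric.ball_mem_nhds x one_pos, ?_⟩
    refine Integrable.mono' (g := fun _ => W) (integrableOn_const (by
      rw [Real.volume_ball]; exact ENNReal.ofReal_ne_top) (by simp)) hw.aestronglyMeasurable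
      (ae_of_all _ hW)
  refine isOpen_Ioo.ae_eq_zero_of_integral_contDiff_smul_eq_zero (hloc.locallyIntegrableOn _) ?_
  intro φ hφd hφc hφs
  have hφ : Continuous φ := hφd.continuous
  -- the compact set
  set Kc : Set ℂ := (fun x : ℝ => (x : ℂ)) '' tsupport φ with hKc
  have hKcc : IsCompact Kc := hφc.isCompact.image (by fun_prop)
  have hKO : Kc ⊆ O := by
    rintro _ ⟨x, hx, rfl⟩
    exact hsub x (hφs hx).1 (hφs hx).2
  obtain ⟨δ, hδ, hthick⟩ := hKcc.exists_cthickening_subset_open hO hKO
  have hmem : ∀ x ∈ tsupport φ, ∀ y : ℝ, |y| ≤ δ → (x : ℂ) + y * I ∈ Metric.cthickening δ Kc := by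
    intro x hx y hy
    refine Metric.mem_cthickening_of_dist_le _ (x : ℂ) δ Kc ⟨x, hx, rfl⟩ ?_
    rw [Complex.dist_eq, add_sub_cancel_left, norm_mul, Complex.norm_I, mul_one, Complex.norm_real,
      Real.norm_eq_abs]
    exact hy
  obtain ⟨M, hM⟩ := (hKcc.cthickening (r := δ)).exists_bound_of_continuousOn (hg.mono hthick)
  -- the sequence
  set y : ℕ → ℝ := fun n => δ / (n + 1) with hy
  have hy0 : ∀ n, 0 < y n := fun n => by rw [hy]; positivity
  have hyδ : ∀ n, |y n| ≤ δ := fun n => by
    rw [abs_of_pos (hy0 n), hy]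
    simp only
    rw [div_le_iff₀ (by positivity)]
    have : (0 : ℝ) ≤ n := Nat.cast_nonneg n
    nlinarith
  have hylim : Tendsto y atTop (𝓝 0) := by
    have h1 : Tendsto (fun n : ℕ => (n : ℝ) + 1) atTop atTop :=
      tendsto_atTop_add_const_right _ _ tendsto_natCast_atTop_atTop
    exact tendsto_const_nhds.div_atTop h1
  have hsupp : ∀ x, x ∉ tsupport φ → φ x = 0 := fun x hx => image_eq_zero_of_notMem_tsupport hx
  have hcc : ∀ n, Continuous fun x : ℝ => cau w b (x - y n * I) := fun n => by
    refine continuous_iff_continuousAt.2 fun x => ?_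
    have h1 : ((x : ℂ) - y n * I).im ≠ 0 := by simpa using (hy0 n).ne'
    exact ContinuousAt.comp (f := fun x : ℝ => (x : ℂ) - y n * I) (cau_diff hw hW h1).continuousAt
      (by fun_prop)
  have hcc' : ∀ n, Continuous fun x : ℝ => cau w b (x + y n * I) := fun n => by
    refine continuous_iff_continuousAt.2 fun x => ?_
    have h1 : ((x : ℂ) + y n * I).im ≠ 0 := by simpa using (hy0 n).ne'
    exact ContinuousAt.comp (f := fun x : ℝ => (x : ℂ) + y n * I) (cau_diff hw hW h1).continuousAt
      (by fun_prop)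
  have hmem1 : ∀ n, ∀ x ∈ tsupport φ, (x : ℂ) + y n * I ∈ Metric.cthickening δ Kc := fun n x hx =>
    hmem x hx (y n) (hyδ n)
  have hmem2 : ∀ n, ∀ x ∈ tsupport φ, (x : ℂ) - y n * I ∈ Metric.cthickening δ Kc := fun n x hx => by
    have := hmem x hx (-y n) (by rw [abs_neg]; exact hyδ n)
    push_cast at this
    rwa [neg_mul, ← sub_eq_add_neg] at this
  have he1 : ∀ n, ∀ x ∈ tsupport φ, cau w b (x + y n * I) = g (x + y n * I) := fun n x hx =>
    heq _ (hthick (hmem1 n x hx)) (by simpa using (hy0 n).ne')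
  have he2 : ∀ n, ∀ x ∈ tsupport φ, cau w b (x - y n * I) = g (x - y n * I) := fun n x hx =>
    heq _ (hthick (hmem2 n x hx)) (by simpa using (hy0 n).ne')
  -- first evaluation
  have hA : Tendsto (fun n => ∫ x : ℝ, (φ x : ℂ) * (cau w b (x - y n * I) - cau w b (x + y n * I)))
      atTop (𝓝 0) := by
    have h1 : Tendsto (fun n => ∫ x : ℝ, (φ x : ℂ) *
        (cau w b (x - y n * I) - cau w b (x + y n * I))) atTop (𝓝 (∫ x : ℝ, (0 : ℂ))) := by
      refine tendsto_integral_of_dominated_convergence (fun x => |φ x| * (2 * M)) (fun n => ?_) ?_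
        (fun n => ae_of_all _ fun x => ?_) (ae_of_all _ fun x => ?_)
      · exact ((Complex.continuous_ofReal.comp hφ).mul ((hcc n).sub (hcc' n))).aestronglyMeasurable
      · exact ((hφ.integrable_of_hasCompactSupport hφc).abs).mul_const _
      · by_cases hx : x ∈ tsupport φ
        · rw [norm_mul, Complex.norm_real, Real.norm_eq_abs, he1 n x hx, he2 n x hx]
          refine mul_le_mul_of_nonneg_left ?_ (abs_nonneg _)
          refine (norm_sub_le _ _).trans ?_
          have e1 := hM _ (hmem1 n x hx)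
          have e2 := hM _ (hmem2 n x hx)
          linarith
        · rw [hsupp x hx]
          simp
      · by_cases hx : x ∈ tsupport φ
        · have hxO : (x : ℂ) ∈ O := hKO ⟨x, hx, rfl⟩
          have hgc : ContinuousAt g x := hg.continuousAt (hO.mem_nhds hxO)
          have e0 : Tendsto (fun n => ((y n : ℝ) : ℂ) * I) atTop (𝓝 0) := by
            have := (Complex.continuous_ofReal.tendsto' 0 0 Complex.ofReal_zero).comp hylim
            simpa using this.mul_const I
          have e1 : Tendsto (fun n => g (x - y n * I)) atTop (𝓝 (g x)) := by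
            have : Tendsto (fun n => (x : ℂ) - y n * I) atTop (𝓝 ((x : ℂ) - 0)) := e0.const_sub _
            rw [sub_zero] at this
            exact hgc.tendsto.comp this
          have e2 : Tendsto (fun n => g (x + y n * I)) atTop (𝓝 (g x)) := by
            have : Tendsto (fun n => (x : ℂ) + y n * I) atTop (𝓝 ((x : ℂ) + 0)) := e0.const_add _
            rw [add_zero] at this
            exact hgc.tendsto.comp this
          have e3 := (e1.sub e2).const_mul (φ x : ℂ)
          rw [sub_self, mul_zero] at e3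
          refine e3.congr fun n => ?_
          rw [he1 n x hx, he2 n x hx]
        · rw [hsupp x hx]
          simp
    simpa using h1
  -- second evaluation
  have hB : ∀ n, ∫ x : ℝ, (φ x : ℂ) * (cau w b (x - y n * I) - cau w b (x + y n * I)) =
      2 * I * ((∫ u in Ioo 0 b, w u * ∫ x, φ x * poi (y n) (x - u) : ℝ) : ℂ) := by
    intro n
    have hp := poi_continuous (hy0 n)
    have e1 : ∀ x : ℝ, cau w b (x - y n * I) - cau w b (x + y n * I) =
        2 * I * ((∫ u in Ioo 0 b, w u * poi (y n) (x - u) : ℝ) : ℂ) := by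
      intro x
      have h1 : ((x : ℂ) - y n * I).im ≠ 0 := by simpa using (hy0 n).ne'
      have h2 : ((x : ℂ) + y n * I).im ≠ 0 := by simpa using (hy0 n).ne'
      unfold cau
      rw [← integral_sub (cau_integrable hw hW h1) (cau_integrable hw hW h2),
        ← integral_complex_ofReal, ← integral_const_mul]
      refine integral_congr_ae (ae_of_all _ fun u => ?_)
      simp only
      have h3 := ker_eq (x := x) (u := u) (hy0 n)
      rw [div_eq_mul_one_div, div_eq_mul_one_div (w u : ℂ) ((x : ℂ) + y n * I - u), ← mul_sub, h3]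
      push_cast
      ring
    have e2 : ∫ x : ℝ, (φ x : ℂ) * (cau w b (x - y n * I) - cau w b (x + y n * I)) =
        2 * I * ((∫ x, φ x * ∫ u in Ioo 0 b, w u * poi (y n) (x - u) : ℝ) : ℂ) := by
      rw [← integral_complex_ofReal, ← integral_const_mul]
      refine integral_congr_ae (ae_of_all _ fun x => ?_)
      simp only
      rw [e1 x]
      push_cast
      ring
    rw [e2]
    congr 2
    have e3 : ∀ x, φ x * ∫ u in Ioo 0 b, w u * poi (y n) (x - u) =
        ∫ u in Ioo 0 b, φ x * (w u * poi (y n) (x - u)) := fun x => (integral_const_mul _ _).symm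
    have e4 : ∀ u, w u * ∫ x, φ x * poi (y n) (x - u) =
        ∫ x, φ x * (w u * poi (y n) (x - u)) := fun u => by
      rw [← integral_const_mul]
      refine integral_congr_ae (ae_of_all _ fun x => ?_)
      simp only
      ring
    simp only [e3, e4]
    refine integral_integral_swap ?_
    have hφi : Integrable φ := hφ.integrable_of_hasCompactSupport hφc
    have hc : Integrable (fun _ : ℝ => W * (1 / y n)) (volume.restrict (Ioo 0 b)) :=
      integrable_const _
    refine Integrable.mono' (hφi.abs.mul_prod hc) ?_ (ae_of_all _ fun q => ?_)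
    · refine Measurable.aestronglyMeasurable ?_
      exact (hφ.measurable.comp measurable_fst).mul ((hw.comp measurable_snd).mul
        (hp.measurable.comp (measurable_fst.sub measurable_snd)))
    · simp only [Function.uncurry]
      rw [norm_mul, norm_mul, Real.norm_eq_abs, Real.norm_eq_abs, Real.norm_eq_abs,
        abs_of_nonneg (poi_nonneg (hy0 n) _)]
      refine mul_le_mul_of_nonneg_left ?_ (abs_nonneg _)
      exact mul_le_mul (hW _) (poi_le (hy0 n) _) (poi_nonneg (hy0 n) _) hW0
  have hC : Tendsto (fun n => ∫ u in Ioo 0 b, w u * ∫ x, φ x * poi (y n) (x - u)) atTop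
      (𝓝 (∫ u in Ioo 0 b, w u * (Real.pi * φ u))) := by
    set B := ⨆ x, |φ x| with hBd
    refine tendsto_integral_of_dominated_convergence (fun _ => W * (Real.pi * B)) (fun n => ?_)
      (integrable_const _) (fun n => ae_of_all _ fun u => ?_) (ae_of_all _ fun u => ?_)
    · have hp := poi_continuous (hy0 n)
      refine hw.aestronglyMeasurable.mul ?_
      refine AEStronglyMeasurable.mono_measure ?_ Measure.restrict_le_self
      refine StronglyMeasurable.aestronglyMeasurable ?_
      refine StronglyMeasurable.integral_prod_right' (f := fun q : ℝ × ℝ =>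
        φ q.2 * poi (y n) (q.2 - q.1)) ?_
      exact Continuous.stronglyMeasurable (by fun_prop)
    · rw [norm_mul, Real.norm_eq_abs, Real.norm_eq_abs]
      have h1 := (poi_conv hφ hφc hy0 hylim u).1 n
      exact mul_le_mul (hW u) h1 (abs_nonneg _) hW0
    · exact ((poi_conv hφ hφc hy0 hylim u).2).const_mul _
  have hD : (2 * I * ((∫ u in Ioo 0 b, w u * (Real.pi * φ u) : ℝ) : ℂ)) = 0 := by
    have h1 : Tendsto (fun n => 2 * I * ((∫ u in Ioo 0 b, w u * ∫ x, φ x * poi (y n) (x - u) : ℝ) : ℂ))
        atTop (𝓝 (2 * I * ((∫ u in Ioo 0 b, w u * (Real.pi * φ u) : ℝ) : ℂ))) :=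
      ((Complex.continuous_ofReal.tendsto _).comp hC).const_mul _
    simp only [hB] at hA
    exact tendsto_nhds_unique h1 hA
  have hE : (∫ u in Ioo 0 b, w u * (Real.pi * φ u)) = 0 := by
    have h2 : (2 * I : ℂ) ≠ 0 := mul_ne_zero two_ne_zero I_ne_zero
    have := (mul_eq_zero.1 hD).resolve_left h2
    exact_mod_cast this
  have hF : ∫ u in Ioo 0 b, w u * (Real.pi * φ u) = Real.pi * ∫ x, φ x • w x := by
    rw [← integral_const_mul, ← integral_indicator measurableSet_Ioo]
    refine integral_congr_ae (ae_of_all _ fun u => ?_)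
    simp only [smul_eq_mul]
    by_cases hu : u ∈ Ioo 0 b
    · rw [indicator_of_mem hu]
      ring
    · rw [indicator_of_notMem hu]
      have : u ∉ tsupport φ := fun h => hu ⟨h0.trans_lt (hφs h).1, (hφs h).2⟩
      rw [hsupp u this]
      ring
  rw [hF] at hE
  exact (mul_eq_zero.1 hE).resolve_left Real.pi_ne_zero

end Pool.Agent.TH942.LS
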