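import Pool.Agent.TH942.LS.Rem

/-!
# Zero-free half planes from means which are invariant in the logarithmic scale
-/

set_option autoImplicit false

open MeasureTheory Filter Topology Set Complex

namespace Pool.Agent.TH942.LS

variable {lam c : ℕ → ℝ} {δ σ W b θ : ℝ} {w : ℝ → ℝ} {Ψ Kf : ℂ → ℂ}

/-- the remainder, integrated -/
noncomputable def EE (w : ℝ → ℝ) (b : ℝ) (E : ℂ → ℂ) (z : ℂ) : ℂ :=
  ∫ u in Ioo 0 b, (w u : ℂ) * (((u ^ 2)⁻¹ : ℝ) * E (z / u))

/-- the open cone -/
def ocone (κ η : ℝ) : Set ℂ := {v | κ < v.re ∧ |v.im| < η * v.re}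

lemma ocone_open (κ η : ℝ) : IsOpen (ocone κ η) := by
  have h1 : IsOpen {v : ℂ | κ < v.re} := isOpen_lt continuous_const Complex.continuous_re
  have h2 : IsOpen {v : ℂ | |v.im| < η * v.re} := isOpen_lt (by fun_prop) (by fun_prop)
  exact h1.inter h2

lemma div_mem {κ η u : ℝ} (hu : u ∈ Ioo 0 b) (hκ : 0 < κ) {z : ℂ}
    (hz : z ∈ ocone (b * κ) η) : z / u ∈ cone κ η := by
  have hu0 := hu.1
  constructor
  · rw [Complex.div_ofReal_re, le_div_iff₀ hu0]
    have := mul_lt_mul_of_pos_left hu.2 hκ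
    linarith [hz.1]
  · rw [Complex.div_ofReal_im, Complex.div_ofReal_re, abs_div, abs_of_pos hu0, ← mul_div_assoc]
    exact div_le_div_of_nonneg_right hz.2.le hu0.le

lemma EE_int (hw : Wt w W b) {κ η C : ℝ} (hκ : 0 < κ) {E : ℂ → ℂ}
    (hE : ∀ v ∈ cone κ η, DifferentiableAt ℂ E v) (hC : 0 ≤ C)
    (hEb : ∀ v ∈ cone κ η, ‖E v‖ ≤ C / ‖v‖ ^ 2) {z : ℂ} (hz : z ∈ ocone (b * κ) η) :
    (∀ u ∈ Ioo 0 b, ‖(w u : ℂ) * (((u ^ 2)⁻¹ : ℝ) * E (z / u))‖ ≤ W * C / (b * κ) ^ 2) ∧
    AEStronglyMeasurable (fun u : ℝ => (w u : ℂ) * (((u ^ 2)⁻¹ : ℝ) * E (z / u)))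
      (volume.restrict (Ioo 0 b)) := by
  have hb := hw.b0
  have hW := hw.W0
  have hz0 : b * κ < z.re := hz.1
  have hbκ : 0 < b * κ := by positivity
  have hzn : b * κ ≤ ‖z‖ := hz0.le.trans (Complex.re_le_norm z)
  constructor
  · intro u hu
    have hu0 := hu.1
    have h1 := hEb _ (div_mem hu hκ hz)
    rw [norm_div, Complex.norm_real, Real.norm_eq_abs, abs_of_pos hu0] at h1
    rw [norm_mul, norm_mul, Complex.norm_real, Complex.norm_real, Real.norm_eq_abs,
      Real.norm_eq_abs, abs_of_pos (by positivity : 0 < (u ^ 2)⁻¹)]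
    have hzp : 0 < ‖z‖ := hbκ.trans_le hzn
    calc |w u| * ((u ^ 2)⁻¹ * ‖E (z / u)‖) ≤ W * ((u ^ 2)⁻¹ * (C / (‖z‖ / u) ^ 2)) := by
          gcongr
          exact hw.bd u
      _ = W * C / ‖z‖ ^ 2 := by field_simp
      _ ≤ W * C / (b * κ) ^ 2 := by gcongr
  · have h1 : ContinuousOn (fun u : ℝ => E (z / u)) (Ioo 0 b) := by
      intro u hu
      have hu0 : (u : ℂ) ≠ 0 := by exact_mod_cast hu.1.ne'
      have h2 : ContinuousAt E (z / u) := (hE _ (div_mem hu hκ hz)).continuousAt
      have h3 : ContinuousAt (fun u : ℝ => z / (u : ℂ)) u :=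
        ContinuousAt.div continuousAt_const (by fun_prop) hu0
      exact (ContinuousAt.comp (f := fun u : ℝ => z / (u : ℂ)) h2 h3).continuousWithinAt
    have hm := hw.meas
    refine (Measurable.aestronglyMeasurable (by fun_prop)).mul
      ((Measurable.aestronglyMeasurable (by fun_prop)).mul (h1.aestronglyMeasurable measurableSet_Ioo))

lemma EE_diff (hw : Wt w W b) {κ η C : ℝ} (hκ : 0 < κ) {E : ℂ → ℂ}
    (hE : ∀ v ∈ cone κ η, DifferentiableAt ℂ E v) (hC : 0 ≤ C)
    (hEb : ∀ v ∈ cone κ η, ‖E v‖ ≤ C / ‖v‖ ^ 2) :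
    DifferentiableOn ℂ (EE w b E) (ocone (b * κ) η) := by
  have hb := hw.b0
  have h := Pool.Agent.HP.differentiableOn_integral (volume.restrict (Ioo 0 b))
    (fun (u : ℝ) (z : ℂ) => if u ∈ Ioo 0 b then (w u : ℂ) * (((u ^ 2)⁻¹ : ℝ) * E (z / u)) else 0)
    (ocone (b * κ) η) (ocone_open _ _) (fun z hz => ?_) (fun u => ?_)
    (fun u => if u ∈ Ioo 0 b then W * C / (b * κ) ^ 2 else 0) ?_ (fun u z hz => ?_)
  · refine h.congr fun z _ => ?_
    unfold EE
    refine setIntegral_congr_fun measurableSet_Ioo fun u hu => ?_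
    rw [if_pos hu]
  · refine (EE_int hw hκ hE hC hEb hz).2.congr ?_
    filter_upwards [ae_restrict_mem measurableSet_Ioo] with u hu
    rw [if_pos hu]
  · by_cases hu : u ∈ Ioo 0 b
    · simp only [hu, if_true]
      intro z hz
      have hu0 : (u : ℂ) ≠ 0 := by exact_mod_cast hu.1.ne'
      have h2 : DifferentiableAt ℂ (fun z : ℂ => E (z / u)) z :=
        DifferentiableAt.comp (f := fun z : ℂ => z / (u : ℂ)) z (hE _ (div_mem hu hκ hz))
          (by fun_prop)
      exact ((h2.const_mul _).const_mul _).differentiableWithinAt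
    · simp only [hu, if_false]
      exact differentiableOn_const _
  · refine (integrable_const (W * C / (b * κ) ^ 2)).congr ?_
    filter_upwards [ae_restrict_mem measurableSet_Ioo] with u hu
    rw [if_pos hu]
  · split_ifs with hu
    · exact (EE_int hw hκ hE hC hEb hz).1 u hu
    · simp

/-- **Main theorem.** If the mean with the weight `w` is `O (exp ((b θ + ε) T))` for every `ε > 0`,
where `b` is the top of the support of `w`, then `Ψ` has no zeros with real part larger
than `θ`. -/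
theorem no_zeros (D : Dat lam c δ σ) (hw : Wt w W b) (H : Cont lam c σ θ Ψ Kf)
    (htop : ∀ κ, κ < b → ¬ ∀ᵐ x, x ∈ Ioo κ b → w x = 0)
    (hS : ∀ α, b * θ < α → ∃ C T₀ : ℝ, ∀ T, T₀ ≤ T → |S lam c w T| ≤ C * Real.exp (α * T))
    {s : ℂ} (hs : θ < s.re) : Ψ s ≠ 0 := by
  intro h0
  obtain ⟨s₁, hs1, h1, hout⟩ := outermost H hs h0
  obtain ⟨κ, η, V, hκ, hκ1, hη, hη1, hV, hc1, hc2⟩ := exists_cone H D.σ0 hs1 hout
  obtain ⟨m, E, C, hm, hEd, hEeq, hC, hEb⟩ := exists_E D H hs1 h1 hκ hη1 hV hc1 hc2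
  have hb := hw.b0
  have hpos : 0 < s₁.re := H.θ0.trans_lt hs1
  have hs0 : s₁ ≠ 0 := by
    intro h
    rw [h] at hpos
    simp at hpos
  have hm0 : (m : ℂ) ≠ 0 := by exact_mod_cast hm.ne'
  set O : Set ℂ := ocone (b * κ) η with hO
  have hOo : IsOpen O := ocone_open _ _
  -- `L` on the cone
  have hLd : ∀ z ∈ O, DifferentiableAt ℂ (fun z => L lam c w (z * s₁)) z := by
    intro z hz
    have h2 : b * θ < (z * s₁).re := by
      have hbc : (b : ℂ) ≠ 0 := by exact_mod_cast hb.ne'
      have h3 : z / b ∈ cone κ η := by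
        constructor
        · rw [Complex.div_ofReal_re, le_div_iff₀ hb]
          linarith [hz.1]
        · rw [Complex.div_ofReal_im, Complex.div_ofReal_re, abs_div, abs_of_pos hb, ← mul_div_assoc]
          exact div_le_div_of_nonneg_right hz.2.le hb.le
      have h4 := (hc1 _ h3).1
      have h5 : z / b * s₁ = (z * s₁) / b := by ring
      rw [h5, Complex.div_ofReal_re, lt_div_iff₀ hb] at h4
      linarith
    obtain ⟨α, hα1, hα2⟩ := exists_between h2
    obtain ⟨C', T₀, hT⟩ := hS α hα1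
    exact DifferentiableAt.comp (f := fun z : ℂ => z * s₁) z (L_diff D hw hT hα2) (by fun_prop)
  have hEE := EE_diff hw hκ hEd hC hEb
  set g : ℂ → ℂ := fun z => s₁ * z / m * (L lam c w (z * s₁) - EE w b E z) with hg
  have hgd : ∀ z ∈ O, DifferentiableAt ℂ g z := by
    intro z hz
    have h2 := hLd z hz
    have h3 := hEE.differentiableAt (hOo.mem_nhds hz)
    have h4 : DifferentiableAt ℂ (fun z : ℂ => s₁ * z / m) z := by fun_prop
    exact h4.mul (h2.sub h3)
  -- far away
  have hfar : ∀ z ∈ O, z.im ≠ 0 → b * σ < (z * s₁).re → cau w b z = g z := by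
    intro z hz him hre
    have hz0 : z ≠ 0 := by
      intro h
      rw [h] at him
      simp at him
    have h2 := laplace D hw hre
    have h3 : ∀ u ∈ Ioo 0 b, (w u : ℂ) * (((u ^ 2)⁻¹ : ℝ) * P lam c (z * s₁ / u)) =
        (w u : ℂ) * (((u ^ 2)⁻¹ : ℝ) * E (z / u)) + m / (s₁ * z) * ((w u : ℂ) / (z - u)) := by
      intro u hu
      have hu0 := hu.1
      have huc : (u : ℂ) ≠ 0 := by exact_mod_cast hu0.ne'
      have h4 : σ < (z * s₁ / u).re := by
        rw [Complex.div_ofReal_re, lt_div_iff₀ hu0]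
        have := mul_lt_mul_of_pos_left hu.2 D.σ0
        linarith
      have h5 : z * s₁ / u = z / u * s₁ := by ring
      have h6 := sub_ne him u
      have h7 : z / u ≠ 1 := by
        intro h
        rw [div_eq_one_iff_eq huc] at h
        exact h6 (sub_eq_zero.2 h)
      have h8 : z / u - 1 ≠ 0 := sub_ne_zero.2 h7
      rw [H.eq _ h4, h5, hEeq _ h7]
      have h9 : (m : ℂ) / (s₁ * (z / u * (z / u - 1))) = m * u ^ 2 / (s₁ * z * (z - u)) := by
        have : z / u - 1 = (z - u) / u := by field_simp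
        rw [this]
        field_simp
      rw [h9]
      push_cast
      field_simp
      ring
    have hi1 : Integrable (fun u : ℝ => (w u : ℂ) * (((u ^ 2)⁻¹ : ℝ) * E (z / u)))
        (volume.restrict (Ioo 0 b)) := by
      obtain ⟨e1, e2⟩ := EE_int hw hκ hEd hC hEb hz
      refine Integrable.mono' (integrable_const (W * C / (b * κ) ^ 2)) e2 ?_
      filter_upwards [ae_restrict_mem measurableSet_Ioo] with u hu
      exact e1 u hu
    have hi2 := cau_integrable (b := b) hw.meas hw.bd him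
    rw [setIntegral_congr_fun measurableSet_Ioo h3, integral_add hi1 (hi2.const_mul _),
      integral_const_mul] at h2
    change L lam c w (z * s₁) = EE w b E z + m / (s₁ * z) * cau w b z at h2
    rw [hg]
    simp only
    rw [h2]
    field_simp
    ring
  -- the identity theorem on a half cone
  have hid : ∀ Q : Set ℂ, Q ⊆ O → IsOpen Q → Convex ℝ Q → (∀ z ∈ Q, z.im ≠ 0) →
      (∃ z ∈ Q, b * σ < (z * s₁).re) → ∀ z ∈ Q, cau w b z = g z := by
    intro Q hQO hQo hQc hQim hQf
    obtain ⟨z₀, hz₀, hz₀'⟩ := hQf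
    have a1 : AnalyticOnNhd ℂ (cau w b) Q := by
      refine DifferentiableOn.analyticOnNhd (fun z hz => ?_) hQo
      exact (cau_diff hw.meas hw.bd (hQim z hz)).differentiableWithinAt
    have a2 : AnalyticOnNhd ℂ g Q := by
      refine DifferentiableOn.analyticOnNhd (fun z hz => ?_) hQo
      exact (hgd z (hQO hz)).differentiableWithinAt
    have a3 : cau w b =ᶠ[𝓝 z₀] g := by
      have ho : IsOpen {z : ℂ | b * σ < (z * s₁).re} := isOpen_lt continuous_const (by fun_prop)
      filter_upwards [hQo.mem_nhds hz₀, ho.mem_nhds hz₀'] with z e1 e2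
      exact hfar z (hQO e1) (hQim z e1) e2
    exact a1.eqOn_of_preconnected_of_eventuallyEq a2 hQc.isPreconnected hz₀ a3
  -- far points
  have hfp : ∀ e : ℝ, |e| < η → ∃ x : ℝ, b * κ < x ∧ 0 < x ∧
      ((x : ℂ) + (e * x : ℝ) * I) ∈ O ∧ b * σ < (((x : ℂ) + (e * x : ℝ) * I) * s₁).re := by
    intro e he
    -- the point `1 + e I` scaled
    have h2 : ((1 : ℂ) + e * I) ∈ cone κ η := by
      constructor
      · simp; linarith
      · simp; linarith
    -- positivity of `Re ((1 + e I) s₁)`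
    have h3 : 0 < s₁.re - e * s₁.im := by
      have h4 := (hc1 _ h2).1
      have h5 : (((1 : ℂ) + e * I) * s₁).re = s₁.re - e * s₁.im := by simp
      rw [h5] at h4
      exact H.θ0.trans_lt h4
    set X : ℝ := max (b * κ + 1) (b * σ / (s₁.re - e * s₁.im) + 1) with hX
    have hX1 : b * κ + 1 ≤ X := le_max_left _ _
    have hX2 : b * σ / (s₁.re - e * s₁.im) + 1 ≤ X := le_max_right _ _
    have hbκ : 0 < b * κ := by positivity
    have hX0 : 0 < X := by linarith
    refine ⟨X, by linarith, hX0, ?_, ?_⟩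
    · constructor
      · simp; linarith
      · have e1 : ((X : ℂ) + (e * X : ℝ) * I).im = e * X := by simp
        have e2 : ((X : ℂ) + (e * X : ℝ) * I).re = X := by simp
        rw [e1, e2, abs_mul, abs_of_pos hX0]
        exact mul_lt_mul_of_pos_right he hX0
    · have e1 : (((X : ℂ) + (e * X : ℝ) * I) * s₁).re = X * (s₁.re - e * s₁.im) := by
        simp
        ring
      rw [e1]
      have e2 : b * σ / (s₁.re - e * s₁.im) < X := by linarith
      rwa [div_lt_iff₀ h3] at e2
  have hup : ∀ z ∈ O, 0 < z.im → cau w b z = g z := by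
    intro z hz him
    refine hid (O ∩ {z | 0 < z.im}) inter_subset_left
      (hOo.inter (isOpen_lt continuous_const Complex.continuous_im)) ?_ (fun z hz => hz.2.ne') ?_ z
      ⟨hz, him⟩
    · have e1 : O ∩ {z : ℂ | 0 < z.im} = {z : ℂ | b * κ < z.re} ∩ ({z : ℂ | 0 < z.im} ∩
          {z : ℂ | 0 < η * z.re - z.im}) := by
        ext v
        simp only [hO, ocone, mem_inter_iff, mem_ofPred_eq]
        constructor
        · rintro ⟨⟨h2, h3⟩, h4⟩
          rw [abs_of_pos h4] at h3
          exact ⟨h2, h4, by linarith⟩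
        · rintro ⟨h2, h4, h3⟩
          refine ⟨⟨h2, ?_⟩, h4⟩
          rw [abs_of_pos h4]
          linarith
      rw [e1]
      refine (convex_halfSpace_re_gt _).inter ((convex_halfSpace_im_gt 0).inter ?_)
      have hl : IsLinearMap ℝ fun z : ℂ => η * z.re - z.im := by
        constructor
        · intro x y; simp; ring
        · intro c x; simp; ring
      exact convex_halfSpace_gt hl 0
    · obtain ⟨x, hx1, hx0, hx2, hx3⟩ := hfp (η / 2) (by rw [abs_of_pos (by positivity)]; linarith)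
      refine ⟨_, ⟨hx2, ?_⟩, hx3⟩
      simp
      positivity
  have hdown : ∀ z ∈ O, z.im < 0 → cau w b z = g z := by
    intro z hz him
    refine hid (O ∩ {z | z.im < 0}) inter_subset_left
      (hOo.inter (isOpen_lt Complex.continuous_im continuous_const)) ?_ (fun z hz => hz.2.ne) ?_ z
      ⟨hz, him⟩
    · have e1 : O ∩ {z : ℂ | z.im < 0} = {z : ℂ | b * κ < z.re} ∩ ({z : ℂ | z.im < 0} ∩
          {z : ℂ | 0 < η * z.re + z.im}) := by
        ext v
        simp only [hO, ocone, mem_inter_iff, mem_ofPred_eq]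
        constructor
        · rintro ⟨⟨h2, h3⟩, h4⟩
          rw [abs_of_neg h4] at h3
          exact ⟨h2, h4, by linarith⟩
        · rintro ⟨h2, h4, h3⟩
          refine ⟨⟨h2, ?_⟩, h4⟩
          rw [abs_of_neg h4]
          linarith
      rw [e1]
      refine (convex_halfSpace_re_gt _).inter ((convex_halfSpace_im_lt 0).inter ?_)
      have hl : IsLinearMap ℝ fun z : ℂ => η * z.re + z.im := by
        constructor
        · intro x y; simp; ring
        · intro c x; simp; ring
      exact convex_halfSpace_gt hl 0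
    · obtain ⟨x, hx1, hx0, hx2, hx3⟩ := hfp (-(η / 2)) (by
        rw [abs_neg, abs_of_pos (by positivity)]; linarith)
      refine ⟨_, ⟨hx2, ?_⟩, hx3⟩
      simp
      positivity
  -- the jump
  have hκb : b * κ < b := by nlinarith
  refine htop (b * κ) hκb (jump hw.meas hw.bd (by positivity) hOo (g := g)
    (fun z hz => (hgd z hz).continuousAt.continuousWithinAt) (fun x hx1 hx2 => ?_)
    fun z hz him => ?_)
  · constructor
    · simpa using hx1
    · have : 0 < x := lt_trans (by positivity) hx1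
      simp
      positivity
  · rcases lt_or_gt_of_ne him with h2 | h2
    · exact hdown z hz h2
    · exact hup z hz h2

end Pool.Agent.TH942.LS
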